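import Mathlib
import Pool.Agent.Helper9.NS
import Pool.Agent.Helper83.VF.Fields
import Pool.Agent.Helper83.VF.Kill
import Pool.Agent.Helper83.KV.FF

/-!
# Harmonic functions on the places of a function field, and functionals on a product of fixed
elliptic curves

The curves are `E i : y ^ 2 = x ^ 3 - 3 (a i) x - 2 (b i)`, `D i = b i ^ 2 - a i ^ 3`. The covering
`X i` of `E i` has coordinates `z, v` with `v ^ 6 = z + b + D / (4 z)`, the map to `E i` is
`x = v ^ 2 + a / v ^ 2`, `y = (z - D / (4 z)) / v ^ 3`.
-/

set_option linter.unusedSectionVars false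

namespace Pool.Agent.Helper51.VN

open VC VF Function

universe u

/-- The function `F` on the places of `K` is orthogonal to all principal divisors. -/
def Harm {k : Type u} [Field k] [IsAlgClosed k] [CharZero k] {K : Type u} [Field K] [Algebra k K]
    (hK : IsFunctionField k K) (F : Place k K → k) : Prop :=
  ∀ (f : K) (hf : f ≠ 0), ∑ v ∈ (finite_support_ord hK hf).toFinset, (ord v.ring f : k) * F v = 0

section curve

variable {F : Type*} [Field F]

/-- The point `(x, y)` lies on the curve `y ^ 2 = x ^ 3 - 3 a x - 2 b`. -/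
def OnE (a b x y : F) : Prop := y ^ 2 = x ^ 3 - 3 * a * x - 2 * b

/-- The point `(z, v)` lies on the covering `v ^ 6 = z + b + D / (4 z)`. -/
def OnX (b D z v : F) : Prop := z ≠ 0 ∧ v ≠ 0 ∧ v ^ 6 = z + b + D / (4 * z)

/-- The first coordinate of the point of the curve with coordinates `(z, v)` on the covering. -/
def px (a v : F) : F := v ^ 2 + a / v ^ 2

/-- The second coordinate. -/
def py (D z v : F) : F := (z - D / (4 * z)) / v ^ 3

end curve

/-- The functionals considered: functions on `E 1 × ⋯ × E n` (affine points), odd in every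
variable, whose composition with any point with coordinates in a function field is a harmonic
function. -/
structure Fun {k : Type u} [Field k] [IsAlgClosed k] [CharZero k] {ι : Type} [Fintype ι]
    [DecidableEq ι] (a b : ι → k) (ψ : (ι → k × k) → k) : Prop where
  harm : ∀ (K : Type u) [Field K] [Algebra k K] (hK : IsFunctionField k K) (x y : ι → K),
    (∀ i, OnE (algebraMap k K (a i)) (algebraMap k K (b i)) (x i) (y i)) →
    ∃ F : Place k K → k, Harm hK F ∧ ∀ (w : Place k K) (c d : ι → k),
      (∀ i, IsRes w (x i) (c i)) → (∀ i, IsRes w (y i) (d i)) → F w = ψ (fun i => (c i, d i))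
  odd : ∀ (p : ι → k × k) (i : ι), (∀ j, OnE (a j) (b j) (p j).1 (p j).2) →
    ψ (update p i ((p i).1, -(p i).2)) = -ψ p

section ff

variable {k : Type u} [Field k] {ι : Type} [Fintype ι] [DecidableEq ι]

/-- The component of `ψ` belonging to the character `ζ ↦ ∏ ζ i` of `μ₃ ^ n`; `ω ^ 2 + ω + 1 = 0`. -/
noncomputable def FF (ω : k) (a D : ι → k) (ψ : (ι → k × k) → k) (z v : ι → k) : k :=
  ∑ e : ι → ZMod 3, ω ^ (-∑ i, e i).val *
    ψ (fun i => (px (a i) (ω ^ (e i).val * v i), py (D i) (z i) (ω ^ (e i).val * v i)))

end ff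

end Pool.Agent.Helper51.VN
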