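import Mathlib
import Pool.Agent.Helper51.VN.Fun

/-!
# Elementary facts on the coverings `X i → E i`
-/

set_option linter.unusedSectionVars false

namespace Pool.Agent.Helper51.VN

open VC VF Function

universe u

section curve

variable {F : Type*} [Field F]

/-- The discriminant `b ^ 2 - a ^ 3`. -/
def disc {ι : Type*} (a b : ι → F) (i : ι) : F := b i ^ 2 - a i ^ 3

/-- The flip: the point `(flz κ b z, flv κ a v)` of the covering lies over the same point of the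
curve as `(z, v)`. -/
def flz (κ b z : F) : F := -((b - κ) / 2) * (z + (b + κ) / 2) / (z + (b - κ) / 2)

/-- The flip, second coordinate. -/
def flv (κ a v : F) : F := κ / a / v

variable [CharZero F] {a b D κ z v : F}

lemma OnX.z0 (h : OnX b D z v) : z ≠ 0 := h.1

lemma OnX.v0 (h : OnX b D z v) : v ≠ 0 := h.2.1

lemma OnX.eqn (h : OnX b D z v) : 4 * z * v ^ 6 = 4 * z ^ 2 + 4 * b * z + D := by
  have := h.1
  rw [h.2.2]
  field_simp

/-- In factorised form. -/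
lemma OnX.fac (h : OnX b D z v) (hD : D = b ^ 2 - κ ^ 2) :
    z * v ^ 6 = (z + (b + κ) / 2) * (z + (b - κ) / 2) := by
  have := h.eqn
  rw [hD] at this
  linear_combination this / 4

lemma OnX.ne1 (h : OnX b D z v) (hD : D = b ^ 2 - κ ^ 2) : z + (b + κ) / 2 ≠ 0 := by
  intro h0
  have := h.fac hD
  rw [h0, zero_mul] at this
  exact mul_ne_zero h.1 (pow_ne_zero 6 h.2.1) this

lemma OnX.ne2 (h : OnX b D z v) (hD : D = b ^ 2 - κ ^ 2) : z + (b - κ) / 2 ≠ 0 := by
  intro h0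
  have := h.fac hD
  rw [h0, mul_zero] at this
  exact mul_ne_zero h.1 (pow_ne_zero 6 h.2.1) this

lemma OnX.mul_six {η : F} (h : OnX b D z v) (hη : η ^ 6 = 1) : OnX b D z (η * v) := by
  have h0 : η ≠ 0 := by
    rintro rfl
    norm_num at hη
  exact ⟨h.1, mul_ne_zero h0 h.2.1, by rw [mul_pow, hη, one_mul, h.2.2]⟩

/-- Points of the covering give points of the curve. -/
lemma OnX.onE (h : OnX b D z v) (hD : D = b ^ 2 - a ^ 3) : OnE a b (px a v) (py D z v) := by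
  obtain ⟨hz, hv, he⟩ := h
  unfold OnE px py
  have e1 : (z - D / (4 * z)) ^ 2 = (v ^ 6 - b) ^ 2 - D := by
    rw [he]
    field_simp
    ring
  rw [div_pow, e1, hD]
  field_simp
  ring

lemma py_neg : py D z (-v) = -py D z v := by
  unfold py
  rw [Odd.neg_pow (by decide), div_neg]

lemma px_neg : px a (-v) = px a v := by
  unfold px
  rw [neg_sq]

lemma py_inv (hz : z ≠ 0) (hD : D ≠ 0) : py D (D / (4 * z)) v = -py D z v := by
  unfold py
  rw [← neg_div]
  congr 1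
  field_simp
  ring

lemma px_fl (ha : a ≠ 0) (hκ : κ ^ 2 = a ^ 3) (hv : v ≠ 0) : px a (flv κ a v) = px a v := by
  unfold px flv
  have hκ0 : κ ≠ 0 := by
    rintro rfl
    apply ha
    have : a ^ 3 = 0 := by rw [← hκ]; norm_num
    exact (pow_eq_zero_iff (by norm_num)).mp this
  have e : (κ / a / v) ^ 2 = a / v ^ 2 := by
    rw [div_pow, div_pow, hκ]
    field_simp
  rw [e]
  field_simp
  ring

lemma py_fl (ha : a ≠ 0) (hκ : κ ^ 2 = a ^ 3) (h : OnX b D z v) (hD : D = b ^ 2 - κ ^ 2)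
    (hD0 : D ≠ 0) : py D (flz κ b z) (flv κ a v) = py D z v := by
  have h1 := h.ne1 hD
  have h2 := h.ne2 hD
  have hf := h.fac hD
  have hv := h.2.1
  have hz := h.1
  have hκ0 : κ ≠ 0 := by
    rintro rfl
    apply ha
    have : a ^ 3 = 0 := by rw [← hκ]; norm_num
    exact (pow_eq_zero_iff (by norm_num)).mp this
  have hbk : (b - κ) * (b + κ) ≠ 0 := by
    intro h0
    apply hD0
    rw [hD]
    linear_combination h0
  have hb1 : b - κ ≠ 0 := left_ne_zero_of_mul hbk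
  have hb2 : b + κ ≠ 0 := right_ne_zero_of_mul hbk
  obtain ⟨s, hs⟩ : ∃ s, s = (b + κ) / 2 := ⟨_, rfl⟩
  obtain ⟨t, ht⟩ : ∃ t, t = (b - κ) / 2 := ⟨_, rfl⟩
  have hs0 : s ≠ 0 := by rw [hs]; exact div_ne_zero hb2 two_ne_zero
  have ht0 : t ≠ 0 := by rw [ht]; exact div_ne_zero hb1 two_ne_zero
  have hDst : D = 4 * s * t := by rw [hD, hs, ht]; ring
  have hκst : κ = s - t := by rw [hs, ht]; ring
  have e3 : (κ / a / v) ^ 3 = κ / v ^ 3 := by
    have : (κ / a / v) ^ 3 = κ * κ ^ 2 / a ^ 3 / v ^ 3 := by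
      field_simp
    rw [this, hκ]
    field_simp
  rw [← hs, ← ht] at hf
  rw [← hs] at h1
  rw [← ht] at h2
  have hfl : flz κ b z = -t * (z + s) / (z + t) := by
    unfold flz
    rw [← hs, ← ht]
  have hst : s - t ≠ 0 := by rw [← hκst]; exact hκ0
  obtain ⟨c, hc⟩ : ∃ c, c = v ^ 3 := ⟨_, rfl⟩
  have hc0 : c ≠ 0 := by rw [hc]; exact pow_ne_zero 3 hv
  have e6 : c ^ 2 * z = (z + s) * (z + t) := by rw [← hf, hc]; ring
  unfold py
  rw [hfl, show (flv κ a v) ^ 3 = κ / v ^ 3 from e3, ← hc, hDst, hκst]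
  have e7 : -t * (z + s) / (z + t) - 4 * s * t / (4 * (-t * (z + s) / (z + t))) =
      (s - t) * (z ^ 2 - s * t) / ((z + s) * (z + t)) := by
    field_simp
    ring
  rw [e7, ← e6]
  field_simp

lemma OnX.fl (ha : a ≠ 0) (hκ : κ ^ 2 = a ^ 3) (h : OnX b D z v) (hD : D = b ^ 2 - κ ^ 2)
    (hD0 : D ≠ 0) : OnX b D (flz κ b z) (flv κ a v) := by
  have h1 := h.ne1 hD
  have h2 := h.ne2 hD
  have hf := h.fac hD
  have hv := h.2.1
  have hz := h.1
  have hκ0 : κ ≠ 0 := by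
    rintro rfl
    apply ha
    have : a ^ 3 = 0 := by rw [← hκ]; norm_num
    exact (pow_eq_zero_iff (by norm_num)).mp this
  have hbk : (b - κ) * (b + κ) ≠ 0 := by
    intro h0
    apply hD0
    rw [hD]
    linear_combination h0
  have hb1 : b - κ ≠ 0 := left_ne_zero_of_mul hbk
  have hb2 : b + κ ≠ 0 := right_ne_zero_of_mul hbk
  obtain ⟨s, hs⟩ : ∃ s, s = (b + κ) / 2 := ⟨_, rfl⟩
  obtain ⟨t, ht⟩ : ∃ t, t = (b - κ) / 2 := ⟨_, rfl⟩
  have ht0 : t ≠ 0 := by rw [ht]; exact div_ne_zero hb1 two_ne_zero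
  have hDst : D = 4 * s * t := by rw [hD, hs, ht]; ring
  have hκst : κ = s - t := by rw [hs, ht]; ring
  have hbst : b = s + t := by rw [hs, ht]; ring
  rw [← hs, ← ht] at hf
  rw [← hs] at h1
  rw [← ht] at h2
  have hfl : flz κ b z = -t * (z + s) / (z + t) := by
    unfold flz
    rw [← hs, ← ht]
  have hst : s - t ≠ 0 := by rw [← hκst]; exact hκ0
  have hfl0 : flz κ b z ≠ 0 := by
    rw [hfl]
    exact div_ne_zero (mul_ne_zero (neg_ne_zero.mpr ht0) h1) h2
  refine ⟨hfl0, div_ne_zero (div_ne_zero hκ0 ha) hv, ?_⟩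
  have e6 : (flv κ a v) ^ 6 = κ ^ 2 / v ^ 6 := by
    unfold flv
    have : (κ / a / v) ^ 6 = κ ^ 2 * (κ ^ 2) ^ 2 / (a ^ 3) ^ 2 / v ^ 6 := by
      field_simp
    rw [this, hκ]
    field_simp
  have e7 : v ^ 6 = (z + s) * (z + t) / z := by
    rw [← hf]
    field_simp
  rw [e6, e7, hfl, hDst, hκst, hbst]
  have hs0 : -(t * (z + s)) ≠ 0 := neg_ne_zero.mpr (mul_ne_zero ht0 h1)
  field_simp
  ring

end curve

end Pool.Agent.Helper51.VN
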