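import Mathlib
import Pool.Agent.Helper51.VN.Basic
import Pool.Agent.Helper83.VF.Swap

/-!
# Paths for harmonic functions
-/

set_option linter.unusedSectionVars false

namespace Pool.Agent.Helper51.VN

open VC VF VP Function

universe u

variable {k : Type u} [Field k] [IsAlgClosed k] [CharZero k]

lemma res_div {K : Type u} [Field K] [Algebra k K] {v : Place k K} {x y : K} {c d : k}
    (hK : IsFunctionField k K) (h : IsRes v x c) (h' : IsRes v y d) (hd : d ≠ 0) :
    IsRes v (x / y) (c / d) := by
  rw [div_eq_mul_inv, div_eq_mul_inv]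
  exact h.mul (h'.inv hK hd)

section harm

variable {K : Type u} [Field K] [Algebra k K] {hK : IsFunctionField k K} {F G : Place k K → k}

lemma Harm.add (hF : Harm hK F) (hG : Harm hK G) : Harm hK (fun v => F v + G v) := by
  intro f hf
  simp only [mul_add, Finset.sum_add_distrib]
  rw [hF f hf, hG f hf, add_zero]

lemma Harm.smul (c : k) (hF : Harm hK F) : Harm hK (fun v => c * F v) := by
  intro f hf
  have : ∀ v : Place k K, (ord v.ring f : k) * (c * F v) = c * ((ord v.ring f : k) * F v) := by
    intro v; ring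
  simp only [this]
  rw [← Finset.mul_sum, hF f hf, mul_zero]

lemma Harm.zero : Harm hK (fun _ => (0 : k)) := by
  intro f hf
  simp

lemma Harm.sum {ι : Type*} (s : Finset ι) {F : ι → Place k K → k} (h : ∀ i ∈ s, Harm hK (F i)) :
    Harm hK (fun v => ∑ i ∈ s, F i v) := by
  classical
  induction s using Finset.induction_on with
  | empty => simpa using Harm.zero (hK := hK)
  | insert a s ha ih =>
    simp only [Finset.sum_insert ha]
    exact (h a (Finset.mem_insert_self _ _)).add
      (ih (fun i hi => h i (Finset.mem_insert_of_mem hi)))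

/-- If the harmonic function takes the value `A` over `τ = a` and the value `B` over `τ = b`, then
`A = B`. -/
theorem Harm.path (h : Harm hK F) {τ : K} (hτ : Transcendental k τ) {a b : k} (hab : a ≠ b)
    {A B : k} (hA : ∀ v, IsRes v τ a → F v = A) (hB : ∀ v, IsRes v τ b → F v = B) : A = B := by
  classical
  have hne : ∀ d : k, τ - algebraMap k K d ≠ 0 := by
    intro d h0
    apply hτ
    rw [sub_eq_zero.mp h0]
    exact isAlgebraic_algebraMap d
  set f : K := (τ - algebraMap k K a) / (τ - algebraMap k K b) with hf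
  have hf0 : f ≠ 0 := div_ne_zero (hne a) (hne b)
  have h1 := h f hf0
  have h2 := degree_zero hK hf0
  have h2' : ∑ v ∈ (finite_support_ord hK hf0).toFinset, (ord v.ring f : k) = 0 := by
    exact_mod_cast congrArg (Int.cast : ℤ → k) h2
  have hpos : ∀ v : Place k K, 0 < ord v.ring f → IsRes v τ a := by
    intro v hv
    rw [ord_pos_iff hK v hf0] at hv
    exact sub_mem_of_div (hne b) hv
  have hneg : ∀ v : Place k K, ord v.ring f < 0 → IsRes v τ b := by
    intro v hv
    have hv' : f⁻¹ ∈ v.ring.nonunits := by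
      rw [← ord_pos_iff hK v (inv_ne_zero hf0), ord_inv hK v hf0]
      omega
    rw [hf, inv_div] at hv'
    exact sub_mem_of_div (hne a) hv'
  have h3 : ∑ v ∈ (finite_support_ord hK hf0).toFinset,
      (ord v.ring f : k) * (F v - B) = 0 := by
    simp only [mul_sub, Finset.sum_sub_distrib, ← Finset.sum_mul]
    rw [h1, h2', zero_mul, sub_zero]
  have h4 : ∀ v ∈ (finite_support_ord hK hf0).toFinset,
      (ord v.ring f : k) * (F v - B) =
      ((max (ord v.ring f) 0 : ℤ) : k) * (A - B) := by
    intro v _
    rcases lt_trichotomy (ord v.ring f) 0 with hlt | heq | hgt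
    · rw [hB v (hneg v hlt), max_eq_right hlt.le]; simp
    · rw [heq]; simp
    · rw [hA v (hpos v hgt), max_eq_left hgt.le]
  rw [Finset.sum_congr rfl h4, ← Finset.sum_mul, mul_eq_zero] at h3
  rcases h3 with h3 | h3
  · exfalso
    have h5 : ∑ v ∈ (finite_support_ord hK hf0).toFinset, max (ord v.ring f) 0 = 0 := by
      exact_mod_cast h3
    rw [Finset.sum_eq_zero_iff_of_nonneg (fun v _ => le_max_right _ _)] at h5
    have hτa : Transcendental k (τ - algebraMap k K a) := by
      intro h6
      apply hτ
      have := h6.add (isAlgebraic_algebraMap (A := K) a)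
      rwa [sub_add_cancel] at this
    obtain ⟨v, hv⟩ := exists_place hK hτa
    have hres : IsRes v τ a := hv
    have hub : IsRes v (τ - algebraMap k K b) (a - b) := hres.sub (isRes_const b)
    have hui := hub.inv_mem (sub_ne_zero.mpr hab)
    have h7 : f ∈ v.ring.nonunits := by
      rw [hf, div_eq_mul_inv, mul_comm]
      exact nonunits_mul hui.2 hv
    have h8 := (ord_pos_iff hK v hf0).mpr h7
    have h9 := h5 v (by
      rw [Set.Finite.mem_toFinset, Set.mem_ofPred_eq]
      exact h8.ne')
    rw [max_eq_left h8.le] at h9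
    exact h8.ne' h9
  · exact sub_eq_zero.mp h3

end harm

section kp

variable {ι : Type} [Fintype ι] [DecidableEq ι] {a b : ι → k} {ψ : (ι → k × k) → k}
  {K : Type u} [Field K] [Algebra k K]

/-- The function `FF` along a curve in the product of the coverings. -/
theorem FF_harm (h : Fun a b ψ) {ω : k} (hω : ω ^ 2 + ω + 1 = 0) (hK : IsFunctionField k K)
    {z v : ι → K}
    (hX : ∀ i, OnX (algebraMap k K (b i)) (algebraMap k K (disc a b i)) (z i) (v i)) :
    ∃ F : Place k K → k, Harm hK F ∧ ∀ (w : Place k K) (z0 v0 : ι → k),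
      (∀ i, IsRes w (z i) (z0 i)) → (∀ i, IsRes w (v i) (v0 i)) → (∀ i, z0 i ≠ 0) →
      (∀ i, v0 i ≠ 0) → F w = FF ω a (disc a b) ψ z0 v0 := by
  have hC : CharZero K := charZero_of_injective_algebraMap (algebraMap k K).injective
  have hω3 : ω ^ 3 = 1 := by linear_combination (ω - 1) * hω
  have hω6 : ∀ n : ℕ, (algebraMap k K (ω ^ n)) ^ 6 = 1 := by
    intro n
    rw [← map_pow, ← pow_mul, mul_comm, pow_mul, show ω ^ 6 = 1 by
      linear_combination (ω ^ 3 + 1) * hω3, one_pow, map_one]
  have h1 : ∀ e : ι → ZMod 3, ∃ F : Place k K → k, Harm hK F ∧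
      ∀ (w : Place k K) (c d : ι → k),
        (∀ i, IsRes w (px (algebraMap k K (a i)) (algebraMap k K (ω ^ (e i).val) * v i)) (c i)) →
        (∀ i, IsRes w (py (algebraMap k K (disc a b i)) (z i)
          (algebraMap k K (ω ^ (e i).val) * v i)) (d i)) → F w = ψ (fun i => (c i, d i)) := by
    intro e
    refine h.harm K hK (fun i => px (algebraMap k K (a i)) (algebraMap k K (ω ^ (e i).val) * v i))
      (fun i => py (algebraMap k K (disc a b i)) (z i)
          (algebraMap k K (ω ^ (e i).val) * v i)) ?_
    intro i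
    refine ((hX i).mul_six (hω6 _)).onE ?_
    simp only [disc, map_sub, map_pow]
  choose F hF1 hF2 using h1
  refine ⟨fun w => ∑ e : ι → ZMod 3, ω ^ (-∑ i, e i).val * F e w,
    Harm.sum _ (fun e _ => (hF1 e).smul _), ?_⟩
  intro w z0 v0 hz hv hz0 hv0
  unfold FF
  apply Finset.sum_congr rfl
  intro e _
  congr 1
  have hω0 : ω ≠ 0 := by
    rintro rfl
    norm_num at hω
  have hv' : ∀ i, IsRes w (algebraMap k K (ω ^ (e i).val) * v i) (ω ^ (e i).val * v0 i) :=
    fun i => (isRes_const _).mul (hv i)
  have hv0' : ∀ i, ω ^ (e i).val * v0 i ≠ 0 := fun i => mul_ne_zero (pow_ne_zero _ hω0) (hv0 i)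
  have h4 : IsRes w (4 : K) (4 : k) := by
    have := isRes_const (v := w) (4 : k)
    rwa [map_ofNat] at this
  apply hF2 e w
  · intro i
    unfold px
    exact ((hv' i).pow 2).add (res_div hK (isRes_const _) ((hv' i).pow 2)
      (pow_ne_zero 2 (hv0' i)))
  · intro i
    unfold py
    exact res_div hK ((hz i).sub (res_div hK (isRes_const _) (h4.mul (hz i))
      (mul_ne_zero (by norm_num) (hz0 i)))) ((hv' i).pow 3) (pow_ne_zero 3 (hv0' i))

end kp

end Pool.Agent.Helper51.VN
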