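import Mathlib
import Pool.Agent.Helper51.VN.Pth

/-!
# Block VN-L3: three points on a line `y = const`

Proof in words. Let `D = b ^ 2 - a ^ 3` (all for the index `i`), `y₀ = py D z v`,
`S c = ∑ e : ZMod 3, ψ (update p i (px a (ω ^ e v), c))`. As `py D z (ω ^ e v) = py D z v`, the claim
is `S y₀ = 0` (`py` does not see `ω ^ e` since `(ω ^ e v) ^ 3 = v ^ 3`). We have
`S (- y₀) = - S y₀` by `h.odd` (all the points lie on the curve: `OnX.mul_six`, `OnX.onE`), so we may
assume `y₀ ≠ 0` (otherwise `S 0 = - S 0`) and have to show `S y₀ = S (- y₀)`. Let `τ = zO k` be the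
variable in `Om k` (`Helper83/KV/FF.lean`), `V` an element of `Om k` with
`V ^ 12 - (2 b + τ ^ 2) V ^ 6 + a ^ 3 = 0` (`X = V ^ 6` is a root of a quadratic; `V ≠ 0` as `a ≠ 0`).
`exists_ff ![V]` gives a function field `K` with `τ, V ∈ K`, `τ` transcendental. The points
`(px a (ω ^ e V), τ)` lie on the curve: `x = V ^ 2 + a / V ^ 2` satisfies
`x ^ 3 - 3 a x = V ^ 6 + a ^ 3 / V ^ 6 = 2 b + τ ^ 2`. By `h.harm` for `x j = update (const (p j).1) i
(px a (ω ^ e V))`, `y j = update (const (p j).2) i τ` and `Harm.sum` there is a harmonic function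
`F` on the places of `K`, `F w = ∑ e, ψ (..)` at the places `w` at which `V` has a nonzero finite
value `V₀` and `τ` a finite value `c`. Over `τ = c`, `c ∈ {y₀, - y₀}`: `V ^ 6` is a root of
`X ^ 2 - (2 b + y₀ ^ 2) X + a ^ 3`, whose roots are `v ^ 6` and `a ^ 3 / v ^ 6`, so `V` has a value
`V₀` (integral, `mem_of_pow` / `exists_res_of_pow`; its inverse too as `a ≠ 0`), and `V₀ ^ 6 = v ^ 6` or
`V₀ ^ 6 = a ^ 3 / v ^ 6`. In the first case `V₀ ^ 2 = ω ^ m v ^ 2`, in the second `V₀ ^ 2 =
ω ^ m a / v ^ 2`; in both cases the triple `(px a (ω ^ e V₀))_e` is a permutation of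
`(px a (ω ^ e v))_e` (`px a u` depends only on `u ^ 2` and does not change under
`u ^ 2 ↦ a / u ^ 2`), so the value is `S c`. Apply `Harm.path` with `y₀ ≠ - y₀`.
-/

set_option linter.unusedSectionVars false

namespace Pool.Agent.Helper51.VN

open VC VF VP Function

universe u

variable {k : Type u} [Field k] [IsAlgClosed k] [CharZero k] {ι : Type} [Fintype ι]
  [DecidableEq ι] {a b : ι → k} {ψ : (ι → k × k) → k}

/-- the three roots of `x ^ 3 - 3 a x = m` -/
private def Tri67 {F : Type*} [Field F] (a m x y z : F) : Prop :=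
  x + y + z = 0 ∧ x * y + x * z + y * z = -(3 * a) ∧ x * y * z = m

private lemma tri_eq67 {F : Type*} [Field F] {a m x y z : F} (h : Tri67 a m x y z) :
    x ^ 3 = 3 * a * x + m ∧ y ^ 3 = 3 * a * y + m ∧ z ^ 3 = 3 * a * z + m := by
  obtain ⟨h1, h2, h3⟩ := h
  refine ⟨?_, ?_, ?_⟩
  · linear_combination x ^ 2 * h1 - x * h2 + h3
  · linear_combination y ^ 2 * h1 - y * h2 + h3
  · linear_combination z ^ 2 * h1 - z * h2 + h3

private lemma pair67 {F : Type*} [Field F] {M : Type*} [AddCommMonoid M] (φ : F → M)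
    {x y x' y' : F} (h1 : x + y = x' + y') (h2 : x * y = x' * y') :
    φ x + φ y = φ x' + φ y' := by
  have h3 : (x - x') * (x - y') = 0 := by linear_combination x * h1 - h2
  rcases mul_eq_zero.mp h3 with h4 | h4
  · have h5 : x = x' := sub_eq_zero.mp h4
    subst h5
    rw [add_left_cancel h1]
  · have h5 : x = y' := sub_eq_zero.mp h4
    subst h5
    rw [add_comm x' x] at h1
    rw [add_left_cancel h1, add_comm]

private lemma tri_unique67 {F : Type*} [Field F] {M : Type*} [AddCommMonoid M] (φ : F → M)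
    {a m x y z x' y' z' : F} (h : Tri67 a m x y z) (h' : Tri67 a m x' y' z') :
    φ x + φ y + φ z = φ x' + φ y' + φ z' := by
  obtain ⟨h1, h2, h3⟩ := h
  obtain ⟨h1', h2', h3'⟩ := h'
  have h4 : (x - x') * ((x - y') * (x - z')) = 0 := by
    linear_combination x ^ 2 * h1 - x * h2 + h3 - x ^ 2 * h1' + x * h2' - h3'
  rcases mul_eq_zero.mp h4 with h5 | h5
  · have h6 : x = x' := sub_eq_zero.mp h5
    subst h6
    have e1 : y + z = y' + z' := by linear_combination h1 - h1'
    have e2 : y * z = y' * z' := by linear_combination h2 - h2' - x * e1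
    rw [add_assoc, add_assoc, pair67 φ e1 e2]
  · rcases mul_eq_zero.mp h5 with h5 | h5
    · have h6 : x = y' := sub_eq_zero.mp h5
      subst h6
      have e1 : y + z = x' + z' := by linear_combination h1 - h1'
      have e2 : y * z = x' * z' := by linear_combination h2 - h2' - x * e1
      rw [add_assoc, pair67 φ e1 e2]
      abel
    · have h6 : x = z' := sub_eq_zero.mp h5
      subst h6
      have e1 : y + z = x' + y' := by linear_combination h1 - h1'
      have e2 : y * z = x' * y' := by linear_combination h2 - h2' - x * e1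
      rw [add_assoc, pair67 φ e1 e2]
      abel

private lemma exists_tri67 {F : Type*} [Field F] [IsAlgClosed F] [CharZero F] (a m : F) :
    ∃ x y z : F, Tri67 a m x y z := by
  obtain ⟨x, hx⟩ : ∃ x : F, x ^ 3 = 3 * a * x + m := by
    obtain ⟨x, hx⟩ := IsAlgClosed.exists_root
      (Polynomial.X ^ 3 - Polynomial.C (3 * a) * Polynomial.X - Polynomial.C m) (by
        have : (Polynomial.X ^ 3 - Polynomial.C (3 * a) * Polynomial.X -
          Polynomial.C m : Polynomial F).degree = 3 := by compute_degree!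
        rw [this]
        norm_num)
    refine ⟨x, ?_⟩
    simp only [Polynomial.IsRoot.def, Polynomial.eval_sub, Polynomial.eval_pow,
      Polynomial.eval_X, Polynomial.eval_mul, Polynomial.eval_C] at hx
    linear_combination hx
  obtain ⟨s, hs⟩ := IsAlgClosed.exists_pow_nat_eq (12 * a - 3 * x ^ 2) (n := 2) (by norm_num)
  have h2 : (2 : F) ≠ 0 := two_ne_zero
  refine ⟨x, (-x + s) / 2, (-x - s) / 2, ?_, ?_, ?_⟩
  · field_simp
    ring
  · field_simp
    linear_combination -hs
  · field_simp
    linear_combination -x * hs + 4 * hx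

private lemma mem_cubic67 {K : Type*} [Field K] {R : ValuationSubring K} {x p q : K} (hp : p ∈ R)
    (hq : q ∈ R) (h : x ^ 3 = p * x + q) : x ∈ R := by
  by_cases h0 : x = 0
  · rw [h0]; exact R.zero_mem
  rcases R.mem_or_inv_mem x with h1 | h1
  · exact h1
  · have e : x = p * x⁻¹ + q * x⁻¹ ^ 2 := by
      field_simp
      linear_combination h
    rw [e]
    exact R.add_mem _ _ (R.mul_mem _ _ hp h1) (R.mul_mem _ _ hq (pow_mem h1 2))

private lemma tri_px67 {F : Type*} [Field F] [CharZero F] {a b D ω z v : F}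
    (hω : ω ^ 2 + ω + 1 = 0) (hX : OnX b D z v) (hD : D = b ^ 2 - a ^ 3) :
    Tri67 a (2 * b + py D z v ^ 2) (px a v) (px a (ω * v)) (px a (ω ^ 2 * v)) := by
  have hv := hX.2.1
  have hω3 : ω ^ 3 = 1 := by linear_combination (ω - 1) * hω
  have hω0 : ω ≠ 0 := by
    rintro rfl
    norm_num at hω
  obtain ⟨w, hw⟩ : ∃ w, w = a / v ^ 2 := ⟨_, rfl⟩
  have hwa : v ^ 2 * w = a := by
    rw [hw]
    field_simp
  have e0 : px a v = v ^ 2 + w := by rw [hw]; rfl
  have e1 : px a (ω * v) = ω ^ 2 * v ^ 2 + ω * w := by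
    have : a / (ω * v) ^ 2 = ω * w := by
      rw [hw]
      field_simp
      linear_combination -a * hω3
    unfold px
    rw [this]
    ring
  have e2 : px a (ω ^ 2 * v) = ω * v ^ 2 + ω ^ 2 * w := by
    have : a / (ω ^ 2 * v) ^ 2 = ω ^ 2 * w := by
      rw [hw]
      field_simp
      linear_combination (-a * (ω ^ 3 + 1)) * hω3
    unfold px
    rw [this]
    linear_combination (ω * v ^ 2) * hω3
  have e3 := hX.onE hD
  unfold OnE at e3
  rw [e0] at e3
  rw [e0, e1, e2, e3]
  refine ⟨?_, ?_, ?_⟩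
  · linear_combination (v ^ 2 + w) * hω
  · linear_combination ((v ^ 2 + w) ^ 2 + (ω ^ 2 - ω + 1) * (v ^ 2 * w)) * hω +
      (v ^ 4 + w ^ 2) * hω3 - 3 * hwa
  · linear_combination (v ^ 2 + w) * ((v ^ 4 + w ^ 2) * hω3 +
      (ω ^ 2 - ω + 1) * (v ^ 2 * w) * hω) - 3 * (v ^ 2 + w) * hwa

/-- the harmonic function on the places of a function field with the three roots -/
private lemma harm_path67 (h : Fun a b ψ) (i : ι) {p : ι → k × k}
    (hp : ∀ j, OnE (a j) (b j) (p j).1 (p j).2) {c₁ c₂ : k} (hc : c₁ ≠ c₂) (hc2 : c₁ ^ 2 = c₂ ^ 2)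
    {x y z : k} (hT : Tri67 (a i) (2 * b i + c₁ ^ 2) x y z) :
    ψ (update p i (x, c₁)) + ψ (update p i (y, c₁)) + ψ (update p i (z, c₁)) =
      ψ (update p i (x, c₂)) + ψ (update p i (y, c₂)) + ψ (update p i (z, c₂)) := by
  have hOm : CharZero (Helper83.KV.Om k) :=
    charZero_of_injective_algebraMap (algebraMap k (Helper83.KV.Om k)).injective
  obtain ⟨X, Y, Z, hXYZ⟩ := exists_tri67 (algebraMap k (Helper83.KV.Om k) (a i))
    (2 * algebraMap k (Helper83.KV.Om k) (b i) + Helper83.KV.zO k ^ 2)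
  obtain ⟨K, _, _, j₀, τ, B, hK, hτ, hj, hB⟩ := Helper83.KV.exists_ff ![X, Y, Z]
  have hB0 : j₀ (B 0) = X := hB 0
  have hB1 : j₀ (B 1) = Y := hB 1
  have hB2 : j₀ (B 2) = Z := hB 2
  have hj0 : ∀ c : k, j₀ (algebraMap k K c) = algebraMap k (Helper83.KV.Om k) c :=
    fun c => j₀.commutes c
  have hTK : Tri67 (algebraMap k K (a i)) (2 * algebraMap k K (b i) + τ ^ 2)
      (B 0) (B 1) (B 2) := by
    obtain ⟨h1, h2, h3⟩ := hXYZ
    have hinj : Function.Injective j₀ := j₀.toRingHom.injective
    refine ⟨hinj ?_, hinj ?_, hinj ?_⟩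
    · rw [map_add, map_add, hB0, hB1, hB2, map_zero, h1]
    · rw [map_add, map_add, map_mul, map_mul, map_mul, hB0, hB1, hB2, h2, map_neg, map_mul, hj0,
        map_ofNat]
    · rw [map_mul, map_mul, hB0, hB1, hB2, h3, map_add, map_mul, map_pow, hj, hj0, map_ofNat]
  have hF : ∀ x : K, x ^ 3 = 3 * algebraMap k K (a i) * x + (2 * algebraMap k K (b i) + τ ^ 2) →
      ∃ F : Place k K → k, Harm hK F ∧ ∀ (w : Place k K) (r c : k), IsRes w x r → IsRes w τ c →
        F w = ψ (update p i (r, c)) := by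
    intro x hx
    obtain ⟨F, hF1, hF2⟩ := h.harm K hK (update (fun j => algebraMap k K (p j).1) i x)
      (update (fun j => algebraMap k K (p j).2) i τ) (by
        intro j
        by_cases hji : j = i
        · subst hji
          rw [update_self, update_self]
          unfold OnE
          linear_combination -hx
        · rw [update_of_ne hji, update_of_ne hji]
          have := congrArg (algebraMap k K) (hp j)
          unfold OnE
          simpa only [map_pow, map_sub, map_mul, map_ofNat] using this)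
    refine ⟨F, hF1, fun w r c hr hcc => ?_⟩
    rw [hF2 w (update (fun j => (p j).1) i r) (update (fun j => (p j).2) i c)]
    · congr 1
      funext j
      by_cases hji : j = i
      · subst hji
        rw [update_self, update_self, update_self]
      · rw [update_of_ne hji, update_of_ne hji, update_of_ne hji]
    · intro j
      by_cases hji : j = i
      · subst hji
        rw [update_self, update_self]
        exact hr
      · rw [update_of_ne hji, update_of_ne hji]
        exact isRes_const _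
    · intro j
      by_cases hji : j = i
      · subst hji
        rw [update_self, update_self]
        exact hcc
      · rw [update_of_ne hji, update_of_ne hji]
        exact isRes_const _
  obtain ⟨e0, e1, e2⟩ := tri_eq67 hTK
  obtain ⟨F0, hF0, hF0'⟩ := hF _ e0
  obtain ⟨F1, hF1, hF1'⟩ := hF _ e1
  obtain ⟨F2, hF2, hF2'⟩ := hF _ e2
  have hres : ∀ (w : Place k K) (c : k), c ^ 2 = c₁ ^ 2 → IsRes w τ c →
      F0 w + F1 w + F2 w =
        ψ (update p i (x, c)) + ψ (update p i (y, c)) + ψ (update p i (z, c)) := by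
    intro w c hcc hw
    have r2 : IsRes w (2 : K) (2 : k) := by
      have := isRes_const (v := w) (2 : k)
      rwa [map_ofNat] at this
    have r3 : IsRes w (3 : K) (3 : k) := by
      have := isRes_const (v := w) (3 : k)
      rwa [map_ofNat] at this
    have hp3 : IsRes w (3 * algebraMap k K (a i)) (3 * a i) := r3.mul (isRes_const _)
    have hq3 : IsRes w (2 * algebraMap k K (b i) + τ ^ 2) (2 * b i + c ^ 2) :=
      (r2.mul (isRes_const _)).add (hw.pow 2)
    obtain ⟨s0, hs0⟩ := exists_res hK (mem_cubic67 hp3.mem hq3.mem e0)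
    obtain ⟨s1, hs1⟩ := exists_res hK (mem_cubic67 hp3.mem hq3.mem e1)
    obtain ⟨s2, hs2⟩ := exists_res hK (mem_cubic67 hp3.mem hq3.mem e2)
    have hTs : Tri67 (a i) (2 * b i + c₁ ^ 2) s0 s1 s2 := by
      obtain ⟨h1, h2, h3⟩ := hTK
      refine ⟨?_, ?_, ?_⟩
      · have h4 := (hs0.add hs1).add hs2
        rw [h1] at h4
        exact h4.unique isRes_zero
      · have h4 := ((hs0.mul hs1).add (hs0.mul hs2)).add (hs1.mul hs2)
        rw [h2] at h4
        exact h4.unique hp3.neg
      · have h4 := (hs0.mul hs1).mul hs2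
        rw [h3] at h4
        rw [← hcc]
        exact h4.unique hq3
    rw [hF0' w s0 c hs0 hw, hF1' w s1 c hs1 hw, hF2' w s2 c hs2 hw]
    exact tri_unique67 (fun r => ψ (update p i (r, c))) hTs hT
  exact ((hF0.add hF1).add hF2).path hτ hc (fun w hw => hres w c₁ rfl hw)
    (fun w hw => hres w c₂ hc2.symm hw)

theorem line3 (h : Fun a b ψ) {ω : k} (hω : ω ^ 2 + ω + 1 = 0) (i : ι) (ha : a i ≠ 0)
    {p : ι → k × k} (hp : ∀ j, OnE (a j) (b j) (p j).1 (p j).2) {z v : k}
    (hX : OnX (b i) (disc a b i) z v) :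
    ∑ e : ZMod 3, ψ (update p i (px (a i) (ω ^ e.val * v),
      py (disc a b i) z (ω ^ e.val * v))) = 0 := by
  have hω3 : ω ^ 3 = 1 := by linear_combination (ω - 1) * hω
  have hT := tri_px67 hω hX rfl
  obtain ⟨c, hc⟩ : ∃ c, c = py (disc a b i) z v := ⟨_, rfl⟩
  have hpy : ∀ e : ℕ, py (disc a b i) z (ω ^ e * v) = c := by
    intro e
    rw [hc]
    unfold py
    rw [mul_pow, ← pow_mul, mul_comm e 3, pow_mul, hω3, one_pow, one_mul]
  rw [← hc] at hT
  have hsum : ∑ e : ZMod 3, ψ (update p i (px (a i) (ω ^ e.val * v),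
      py (disc a b i) z (ω ^ e.val * v))) =
      ψ (update p i (px (a i) v, c)) + ψ (update p i (px (a i) (ω * v), c)) +
        ψ (update p i (px (a i) (ω ^ 2 * v), c)) := by
    have h3 : ∀ f : ZMod 3 → k, ∑ e : ZMod 3, f e = f 0 + f 1 + f 2 :=
      fun f => Fin.sum_univ_three f
    rw [h3]
    have v0 : (0 : ZMod 3).val = 0 := rfl
    have v1 : (1 : ZMod 3).val = 1 := rfl
    have v2 : (2 : ZMod 3).val = 2 := rfl
    rw [v0, v1, v2, hpy, hpy, hpy, pow_zero, pow_one, one_mul]
  rw [hsum]
  have hodd : ∀ x : k, x ^ 3 = 3 * a i * x + (2 * b i + c ^ 2) →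
      ψ (update p i (x, -c)) = -ψ (update p i (x, c)) := by
    intro x hx
    have h1 := h.odd (update p i (x, c)) i (by
      intro j
      by_cases hji : j = i
      · subst hji
        rw [update_self]
        unfold OnE
        linear_combination -hx
      · rw [update_of_ne hji]
        exact hp j)
    rw [update_self, update_idem] at h1
    exact h1
  obtain ⟨e0, e1, e2⟩ := tri_eq67 hT
  have key : ψ (update p i (px (a i) v, c)) + ψ (update p i (px (a i) (ω * v), c)) +
        ψ (update p i (px (a i) (ω ^ 2 * v), c)) =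
      ψ (update p i (px (a i) v, -c)) + ψ (update p i (px (a i) (ω * v), -c)) +
        ψ (update p i (px (a i) (ω ^ 2 * v), -c)) := by
    by_cases hc0 : c = 0
    · rw [hc0, neg_zero]
    · refine harm_path67 h i hp ?_ (neg_sq c).symm hT
      intro h1
      apply hc0
      have h2 : 2 * c = 0 := by linear_combination h1
      exact (mul_eq_zero.mp h2).resolve_left two_ne_zero
  rw [hodd _ e0, hodd _ e1, hodd _ e2] at key
  have h2 : 2 * (ψ (update p i (px (a i) v, c)) + ψ (update p i (px (a i) (ω * v), c)) +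
        ψ (update p i (px (a i) (ω ^ 2 * v), c))) = 0 := by
    linear_combination key
  exact (mul_eq_zero.mp h2).resolve_left two_ne_zero

end Pool.Agent.Helper51.VN
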