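import Mathlib
import Pool.Agent.Helper51.VN.Line3

/-!
# Block VN-FOU: Fourier inversion on `μ₃ ^ ι`

Proof in words. For `e : ι → ZMod 3` let `g e = ψ (points (z i, ω ^ (e i) v i))` (the argument of `ψ`
in `FF`), for `c : ι → ZMod 3` let `G c = ∑ e, ω ^ (- ∑ i, c i * e i).val * g e`.
(1) `∑ c, G c = 3 ^ card ι * g 0` (orthogonality: `∑ c, ω ^ (- ∑ c i e i).val = 3 ^ card ι` if `e = 0`
and `0` otherwise; `n ↦ ω ^ n.val` is additive on `ZMod 3` because `ω ^ 3 = 1`), and `g 0` is the left
hand side.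
(2) If `c i = 0` for some `i` then `G c = 0`: the weight does not depend on `e i`, and the sum over
`e i` vanishes by `line3` (write the sum over `e` as a sum over the other coordinates and `e i`, e.g.
by the equivalence `Equiv.funSplitAt` / `Fintype.sum_equiv`, or by
`Finset.sum_bij`/`Fintype.sum_prod_type`).
(3) If all `c i ≠ 0` let `S i = (c i = 2)`; then `G c = FF ω a (disc a b) ψ z^S v^S` with
`z^S i = if S i then flz (κ i) (b i) (z i) else z i` and similarly `v^S`: for `S i` the point with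
coordinates `(flz, ω ^ e flv)` is the point with coordinates `(z, ω ^ (- e) v)`, by `px_fl`, `py_fl`
applied to `(z, ω ^ (-e) v)`, for `flv κ a (ω ^ (-e).val v) = ω ^ e.val flv κ a v`; substitute
`e i ↦ - e i` for the `i` with `S i`.
The functions `c` with all `c i ∈ {1, 2}` correspond to the functions `S : ι → Bool`.
-/

set_option linter.unusedSectionVars false

namespace Pool.Agent.Helper51.VN

open VC VF VP Function

universe u

variable {k : Type u} [Field k] [IsAlgClosed k] [CharZero k] {ι : Type} [Fintype ι]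
  [DecidableEq ι] {a b : ι → k} {ψ : (ι → k × k) → k}

/-- The flip of the coordinates in `S`. -/
def flipz (κ b z : ι → k) (S : ι → Bool) (i : ι) : k :=
  if S i then flz (κ i) (b i) (z i) else z i

/-- The flip of the coordinates in `S`. -/
def flipv (κ a v : ι → k) (S : ι → Bool) (i : ι) : k :=
  if S i then flv (κ i) (a i) (v i) else v i

section aux56

private lemma om3_56 {ω : k} (hω : ω ^ 2 + ω + 1 = 0) : ω ^ 3 = 1 := by
  linear_combination (ω - 1) * hω

private lemma chi_add56 {ω : k} (hω : ω ^ 2 + ω + 1 = 0) (m n : ZMod 3) :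
    ω ^ (m + n).val = ω ^ m.val * ω ^ n.val := by
  rw [ZMod.val_add, ← pow_eq_pow_mod _ (om3_56 hω), pow_add]

private lemma chi_sum56 {ω : k} (hω : ω ^ 2 + ω + 1 = 0) (f : ι → ZMod 3) (s : Finset ι) :
    ω ^ (∑ i ∈ s, f i).val = ∏ i ∈ s, ω ^ (f i).val := by
  classical
  induction s using Finset.induction_on with
  | empty => simp
  | insert i s hi ih => rw [Finset.sum_insert hi, Finset.prod_insert hi, chi_add56 hω, ih]

private lemma chi_orth56 {ω : k} (hω : ω ^ 2 + ω + 1 = 0) (e : ZMod 3) :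
    ∑ c : ZMod 3, ω ^ (-(c * e)).val = if e = 0 then 3 else 0 := by
  have h0 : (Finset.univ : Finset (ZMod 3)) = {0, 1, 2} := rfl
  rw [h0, Finset.sum_insert (by decide), Finset.sum_insert (by decide), Finset.sum_singleton]
  rcases (by decide : ∀ e : ZMod 3, e = 0 ∨ e = 1 ∨ e = 2) e with he | he | he
  · rw [he]
    have e1 : (-((0 : ZMod 3) * 0)).val = 0 := by decide
    have e2 : (-((1 : ZMod 3) * 0)).val = 0 := by decide
    have e3 : (-((2 : ZMod 3) * 0)).val = 0 := by decide
    rw [e1, e2, e3, if_pos rfl]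
    norm_num
  · rw [he]
    have e1 : (-((0 : ZMod 3) * 1)).val = 0 := by decide
    have e2 : (-((1 : ZMod 3) * 1)).val = 2 := by decide
    have e3 : (-((2 : ZMod 3) * 1)).val = 1 := by decide
    rw [e1, e2, e3, if_neg (by decide)]
    linear_combination hω
  · rw [he]
    have e1 : (-((0 : ZMod 3) * 2)).val = 0 := by decide
    have e2 : (-((1 : ZMod 3) * 2)).val = 1 := by decide
    have e3 : (-((2 : ZMod 3) * 2)).val = 2 := by decide
    rw [e1, e2, e3, if_neg (by decide)]
    linear_combination hω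

private lemma shift56 (H : (ι → ZMod 3) → k) (e : ι → ZMod 3) (i : ι) :
    ∑ t : ZMod 3, H (update e i (e i + t)) = ∑ s : ZMod 3, H (update e i s) :=
  Equiv.sum_comp (Equiv.addLeft (e i)) (fun s => H (update e i s))

private lemma trans56 (H : (ι → ZMod 3) → k) (i : ι) (t : ZMod 3) :
    ∑ e : ι → ZMod 3, H (e + Pi.single i t) = ∑ e : ι → ZMod 3, H e :=
  Equiv.sum_comp (Equiv.addRight (Pi.single i t : ι → ZMod 3)) H

private lemma vanish56 (H : (ι → ZMod 3) → k) (i : ι)
    (h3 : ∀ e : ι → ZMod 3, ∑ s : ZMod 3, H (update e i s) = 0) :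
    ∑ e : ι → ZMod 3, H e = 0 := by
  have h4 : ∀ (e : ι → ZMod 3) (t : ZMod 3), e + Pi.single i t = update e i (e i + t) := by
    intro e t
    funext j
    by_cases hj : j = i
    · subst hj
      simp
    · simp [hj]
  have h8 : ∑ t : ZMod 3, ∑ e : ι → ZMod 3, H (e + Pi.single i t) = 0 := by
    rw [Finset.sum_comm]
    refine Finset.sum_eq_zero fun e _ => ?_
    simp_rw [h4]
    rw [shift56 H e i]
    exact h3 e
  simp_rw [trans56 H i] at h8
  rw [Finset.sum_const, Finset.card_univ, ZMod.card, nsmul_eq_mul] at h8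
  have h9 : ((3 : ℕ) : k) ≠ 0 := by norm_num
  exact (mul_eq_zero.1 h8).resolve_left h9

private def gg56 (ω : k) (a D : ι → k) (ψ : (ι → k × k) → k) (z v : ι → k) (e : ι → ZMod 3) : k :=
  ψ (fun i => (px (a i) (ω ^ (e i).val * v i), py (D i) (z i) (ω ^ (e i).val * v i)))

private noncomputable def GG56 (ω : k) (a D : ι → k) (ψ : (ι → k × k) → k) (z v : ι → k)
    (c : ι → ZMod 3) : k :=
  ∑ e : ι → ZMod 3, ω ^ (-∑ i, c i * e i).val * gg56 ω a D ψ z v e

private lemma sum_GG56 {ω : k} (hω : ω ^ 2 + ω + 1 = 0) (a D : ι → k) (ψ : (ι → k × k) → k)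
    (z v : ι → k) : ∑ c : ι → ZMod 3, GG56 ω a D ψ z v c =
      3 ^ Fintype.card ι * gg56 ω a D ψ z v 0 := by
  unfold GG56
  rw [Finset.sum_comm]
  have h1 : ∀ e : ι → ZMod 3, ∑ c : ι → ZMod 3, ω ^ (-∑ i, c i * e i).val * gg56 ω a D ψ z v e =
      (if e = 0 then 3 ^ Fintype.card ι else 0) * gg56 ω a D ψ z v e := by
    intro e
    rw [← Finset.sum_mul]
    congr 1
    have h2 : ∀ c : ι → ZMod 3, ω ^ (-∑ i, c i * e i).val = ∏ i, ω ^ (-(c i * e i)).val := by
      intro c
      rw [← Finset.sum_neg_distrib, chi_sum56 hω]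
    simp_rw [h2]
    have h3 := Finset.prod_univ_sum (fun _ : ι => (Finset.univ : Finset (ZMod 3)))
      (fun i c => ω ^ (-(c * e i)).val)
    rw [Fintype.piFinset_univ] at h3
    rw [← h3]
    simp_rw [chi_orth56 hω]
    by_cases he : e = 0
    · subst he
      simp
    · rw [if_neg he]
      obtain ⟨i, hi⟩ : ∃ i, e i ≠ 0 := by
        by_contra hcon
        push Not at hcon
        exact he (funext hcon)
      exact Finset.prod_eq_zero (Finset.mem_univ i) (if_neg hi)
  simp_rw [h1]
  rw [Finset.sum_eq_single (0 : ι → ZMod 3)]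
  · rw [if_pos rfl]
  · intro e _ he
    rw [if_neg he, zero_mul]
  · intro h
    exact absurd (Finset.mem_univ _) h

private lemma GG_zero56 (h : Fun a b ψ) {ω : k} (hω : ω ^ 2 + ω + 1 = 0) (ha : ∀ i, a i ≠ 0)
    {z v : ι → k} (hX : ∀ i, OnX (b i) (disc a b i) (z i) (v i)) {c : ι → ZMod 3} {i : ι}
    (hc : c i = 0) : GG56 ω a (disc a b) ψ z v c = 0 := by
  unfold GG56
  refine vanish56 _ i fun e => ?_
  set p : ι → k × k := fun j => (px (a j) (ω ^ (e j).val * v j),
    py (disc a b j) (z j) (ω ^ (e j).val * v j)) with hp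
  have hpE : ∀ j, OnE (a j) (b j) (p j).1 (p j).2 := by
    intro j
    refine OnX.onE ((hX j).mul_six (η := ω ^ (e j).val) ?_) rfl
    rw [← pow_mul, mul_comm, pow_mul, show ω ^ 6 = 1 by
      rw [show (6 : ℕ) = 3 * 2 from rfl, pow_mul, om3_56 hω, one_pow], one_pow]
  have h5 := line3 h hω i (ha i) hpE (hX i)
  have h6 : ∀ s : ZMod 3, ω ^ (-∑ j, c j * update e i s j).val *
      gg56 ω a (disc a b) ψ z v (update e i s) = ω ^ (-∑ j, c j * e j).val *
      ψ (update p i (px (a i) (ω ^ s.val * v i), py (disc a b i) (z i) (ω ^ s.val * v i))) := by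
    intro s
    have h7 : ∑ j, c j * update e i s j = ∑ j, c j * e j := by
      refine Finset.sum_congr rfl fun j _ => ?_
      by_cases hj : j = i
      · subst hj
        rw [hc, zero_mul, zero_mul]
      · rw [update_of_ne hj]
    rw [h7]
    congr 1
    unfold gg56
    congr 1
    funext j
    by_cases hj : j = i
    · subst hj
      rw [update_self, update_self]
    · rw [update_of_ne hj, update_of_ne hj]
  rw [Finset.sum_congr rfl fun s _ => h6 s, ← Finset.mul_sum, h5, mul_zero]

private lemma FF_eq56 {ω : k} (hω : ω ^ 2 + ω + 1 = 0) (ha : ∀ i, a i ≠ 0)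
    (hD : ∀ i, disc a b i ≠ 0) {κ : ι → k} (hκ : ∀ i, κ i ^ 2 = a i ^ 3) {z v : ι → k}
    (hX : ∀ i, OnX (b i) (disc a b i) (z i) (v i)) (S : ι → Bool) :
    FF ω a (disc a b) ψ (flipz κ b z S) (flipv κ a v S) =
      GG56 ω a (disc a b) ψ z v (fun i => if S i then -1 else 1) := by
  unfold FF GG56
  have hinv : Function.Involutive (fun e : ι → ZMod 3 =>
      ((fun i => if S i then -e i else e i) : ι → ZMod 3)) := by
    intro e
    funext i
    by_cases hS : S i = true
    · simp [hS]
    · simp [hS]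
  refine Fintype.sum_equiv (Function.Involutive.toPerm _ hinv) _ _ fun e => ?_
  have hσ : ∀ i, Function.Involutive.toPerm _ hinv e i = if S i then -e i else e i := fun i => rfl
  have h1 : ∑ i, (if S i then (-1 : ZMod 3) else 1) * Function.Involutive.toPerm _ hinv e i = ∑ i, e i := by
    refine Finset.sum_congr rfl fun i _ => ?_
    rw [hσ]
    by_cases hS : S i = true
    · simp [hS]
    · simp [hS]
  rw [h1]
  congr 1
  unfold gg56
  congr 1
  funext i
  rw [hσ]
  unfold flipz flipv
  by_cases hS : S i = true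
  · rw [if_pos hS, if_pos hS, if_pos hS]
    have h6 : (ω ^ (-e i).val) ^ 6 = 1 := by
      rw [← pow_mul, mul_comm, pow_mul, show ω ^ 6 = 1 by
        rw [show (6 : ℕ) = 3 * 2 from rfl, pow_mul, om3_56 hω, one_pow], one_pow]
    have hX' := (hX i).mul_six h6
    have h7 : ω ^ (e i).val * ω ^ (-e i).val = 1 := by
      rw [← chi_add56 hω, add_neg_cancel]
      simp
    have h8 : ω ^ (e i).val * flv (κ i) (a i) (v i) = flv (κ i) (a i) (ω ^ (-e i).val * v i) := by
      unfold flv
      have h9 : ω ^ (-e i).val ≠ 0 := right_ne_zero_of_mul_eq_one h7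
      have h10 := hX'.v0
      have h11 := (hX i).v0
      have h12 := ha i
      rw [eq_div_iff h10, mul_comm (ω ^ (e i).val), mul_assoc, ← mul_assoc (ω ^ (e i).val), h7, one_mul]
      field_simp
    rw [h8]
    have hD' : disc a b i = b i ^ 2 - κ i ^ 2 := by rw [hκ i]; rfl
    rw [px_fl (ha i) (hκ i) hX'.v0, py_fl (ha i) (hκ i) hX' hD' (hD i)]
  · rw [if_neg hS, if_neg hS, if_neg hS]

end aux56

theorem fourier (h : Fun a b ψ) {ω : k} (hω : ω ^ 2 + ω + 1 = 0) (ha : ∀ i, a i ≠ 0)
    (hD : ∀ i, disc a b i ≠ 0) {κ : ι → k} (hκ : ∀ i, κ i ^ 2 = a i ^ 3) {z v : ι → k}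
    (hX : ∀ i, OnX (b i) (disc a b i) (z i) (v i)) :
    3 ^ Fintype.card ι * ψ (fun i => (px (a i) (v i), py (disc a b i) (z i) (v i))) =
      ∑ S : ι → Bool, FF ω a (disc a b) ψ (flipz κ b z S) (flipv κ a v S) := by
  have h1 := sum_GG56 hω a (disc a b) ψ z v
  have h2 : gg56 ω a (disc a b) ψ z v 0 =
      ψ (fun i => (px (a i) (v i), py (disc a b i) (z i) (v i))) := by
    unfold gg56
    simp
  rw [← h2, ← h1]
  symm
  refine Fintype.sum_of_injective (fun (S : ι → Bool) (i : ι) => if S i then (-1 : ZMod 3) else 1)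
    ?_ _ _ ?_ ?_
  · intro S S' hSS
    funext i
    have h3 := congrFun hSS i
    by_cases hS : S i = true
    · by_cases hS' : S' i = true
      · rw [hS, hS']
      · simp only [hS, hS', if_true, if_false] at h3
        exact absurd h3 (by decide)
    · by_cases hS' : S' i = true
      · simp only [hS, hS', if_true, if_false] at h3
        exact absurd h3 (by decide)
      · rw [Bool.not_eq_true] at hS hS'
        rw [hS, hS']
  · intro c hc
    have h4 : ∃ i, c i = 0 := by
      by_contra hcon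
      push Not at hcon
      apply hc
      refine ⟨fun i => decide (c i = -1), ?_⟩
      funext i
      have h5 := hcon i
      have h6 : ∀ x : ZMod 3, x ≠ 0 → (if decide (x = -1) = true then (-1 : ZMod 3) else 1) = x := by
        decide
      exact h6 (c i) h5
    obtain ⟨i, hi⟩ := h4
    exact GG_zero56 h hω ha hX hi
  · intro S
    exact FF_eq56 hω ha hD hκ hX S

end Pool.Agent.Helper51.VN
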