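import Mathlib
import Pool.Agent.Helper51.VN.Pth

/-!
# The action of the sixth roots of unity
-/

set_option linter.unusedSectionVars false

namespace Pool.Agent.Helper51.VN

open VC VF VP Function

universe u

section root

variable {F : Type*} [Field F] {ω : F}

lemma om3 (hω : ω ^ 2 + ω + 1 = 0) : ω ^ 3 = 1 := by linear_combination (ω - 1) * hω

lemma om_ne (hω : ω ^ 2 + ω + 1 = 0) : ω ≠ 0 := by
  rintro rfl
  norm_num at hω

lemma om_add (hω : ω ^ 2 + ω + 1 = 0) (m n : ZMod 3) :
    ω ^ (m + n).val = ω ^ m.val * ω ^ n.val := by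
  have h3 := om3 hω
  rw [ZMod.val_add, ← pow_add]
  conv_rhs => rw [← Nat.div_add_mod (m.val + n.val) 3]
  rw [pow_add, pow_mul, h3, one_pow, one_mul]

lemma om_zero (ω : F) : ω ^ (0 : ZMod 3).val = 1 := by
  rw [ZMod.val_zero, pow_zero]

lemma om_sum (hω : ω ^ 2 + ω + 1 = 0) {ι : Type*} (s : Finset ι) (m : ι → ZMod 3) :
    ω ^ (∑ i ∈ s, m i).val = ∏ i ∈ s, ω ^ (m i).val := by
  classical
  induction s using Finset.induction_on with
  | empty => simp
  | insert a s ha ih => rw [Finset.sum_insert ha, Finset.prod_insert ha, om_add hω, ih]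

lemma om_neg (hω : ω ^ 2 + ω + 1 = 0) (m : ZMod 3) :
    ω ^ (-m).val * ω ^ m.val = 1 := by
  rw [← om_add hω, neg_add_cancel, om_zero]

lemma om_pow6 (hω : ω ^ 2 + ω + 1 = 0) (n : ℕ) : (ω ^ n) ^ 6 = 1 := by
  rw [← pow_mul, mul_comm, pow_mul, show ω ^ 6 = 1 by
    linear_combination (ω ^ 3 + 1) * om3 hω, one_pow]

lemma om_pow3 (hω : ω ^ 2 + ω + 1 = 0) (n : ℕ) : (ω ^ n) ^ 3 = 1 := by
  rw [← pow_mul, mul_comm, pow_mul, om3 hω, one_pow]

/-- A cube root of unity is a power of `ω`. -/
lemma cube_root (hω : ω ^ 2 + ω + 1 = 0) {x : F} (hx : x ^ 3 = 1) :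
    ∃ m : ZMod 3, x = ω ^ m.val := by
  have h : (x - 1) * ((x - ω) * (x - ω ^ 2)) = 0 := by
    linear_combination hx + (-x ^ 2 + x * ω - ω + 1) * hω
  rcases mul_eq_zero.mp h with h | h
  · exact ⟨0, by rw [om_zero]; exact sub_eq_zero.mp h⟩
  rcases mul_eq_zero.mp h with h | h
  · exact ⟨1, by
      rw [sub_eq_zero.mp h]
      change ω = ω ^ 1
      rw [pow_one]⟩
  · exact ⟨2, sub_eq_zero.mp h⟩

/-- A sixth root of unity is `±` a power of `ω`. -/
lemma six_root (hω : ω ^ 2 + ω + 1 = 0) {x : F} (hx : x ^ 6 = 1) :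
    ∃ (s : F) (m : ZMod 3), (s = 1 ∨ s = -1) ∧ x = s * ω ^ m.val := by
  have h1 : x ^ 3 * x ^ 3 = 1 := by rw [← hx]; ring
  rcases mul_self_eq_one_iff.mp h1 with h | h
  · obtain ⟨m, hm⟩ := cube_root hω h
    exact ⟨1, m, Or.inl rfl, by rw [one_mul]; exact hm⟩
  · obtain ⟨m, hm⟩ := cube_root hω (x := -x) (by
      rw [Odd.neg_pow (by decide), h, neg_neg])
    exact ⟨-1, m, Or.inr rfl, by rw [neg_one_mul, ← hm, neg_neg]⟩

end root

variable {k : Type u} [Field k] [IsAlgClosed k] [CharZero k] {ι : Type} [Fintype ι]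
  [DecidableEq ι] {a b : ι → k} {ψ : (ι → k × k) → k}

/-- Changing signs of second coordinates. -/
lemma Fun.signs (h : Fun a b ψ) {x y : ι → k} (hE : ∀ i, OnE (a i) (b i) (x i) (y i))
    {s : ι → k} (hs : ∀ i, s i = 1 ∨ s i = -1) :
    ψ (fun i => (x i, s i * y i)) = (∏ i, s i) * ψ (fun i => (x i, y i)) := by
  have key : ∀ T : Finset ι, ψ (fun i => (x i, if i ∈ T then s i * y i else y i)) =
      (∏ i ∈ T, s i) * ψ (fun i => (x i, y i)) := by
    intro T
    induction T using Finset.induction_on with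
    | empty => simp
    | insert c T hc ih =>
      rw [Finset.prod_insert hc, mul_assoc, ← ih]
      have hE' : ∀ j, OnE (a j) (b j) (x j) (if j ∈ T then s j * y j else y j) := by
        intro j
        split_ifs
        · have := hE j
          unfold OnE at this ⊢
          rw [mul_pow, this]
          rcases hs j with e | e <;> rw [e] <;> ring
        · exact hE j
      rcases hs c with e | e
      · rw [e, one_mul]
        congr 1
        funext j
        by_cases hj : j = c
        · subst hj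
          rw [if_pos (Finset.mem_insert_self _ _), if_neg hc, e, one_mul]
        · simp only [Finset.mem_insert, hj, false_or]
      · rw [e, neg_one_mul]
        have := h.odd (fun i => (x i, if i ∈ T then s i * y i else y i)) c hE'
        rw [← this]
        congr 1
        funext j
        by_cases hj : j = c
        · subst hj
          rw [update_self, if_pos (Finset.mem_insert_self _ _)]
          simp only [if_neg hc, e, neg_one_mul]
        · rw [update_of_ne hj]
          simp only [Finset.mem_insert, hj, false_or]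
  have := key Finset.univ
  simpa using this

theorem FF_mu (h : Fun a b ψ) {ω : k} (hω : ω ^ 2 + ω + 1 = 0) {z v η : ι → k}
    (hX : ∀ i, OnX (b i) (disc a b i) (z i) (v i)) (hη : ∀ i, η i ^ 6 = 1) :
    FF ω a (disc a b) ψ z (fun i => η i * v i) = (∏ i, η i) * FF ω a (disc a b) ψ z v := by
  choose s m hs hm using fun i => six_root hω (hη i)
  unfold FF
  rw [Finset.mul_sum]
  refine Fintype.sum_equiv (Equiv.addRight m) _ _ ?_
  intro e
  change _ = (∏ i, η i) * (ω ^ (-∑ i, (e i + m i)).val * ψ (fun i =>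
    (px (a i) (ω ^ (e i + m i).val * v i), py (disc a b i) (z i) (ω ^ (e i + m i).val * v i))))
  have hv : ∀ i, ω ^ (e i).val * (η i * v i) = s i * (ω ^ (e i + m i).val * v i) := by
    intro i
    rw [om_add hω, hm i]
    ring
  have h1 : ∀ i, px (a i) (ω ^ (e i).val * (η i * v i)) = px (a i) (ω ^ (e i + m i).val * v i) := by
    intro i
    rw [hv i]
    rcases hs i with e' | e'
    · rw [e', one_mul]
    · rw [e', neg_one_mul, px_neg]
  have h2 : ∀ i, py (disc a b i) (z i) (ω ^ (e i).val * (η i * v i)) =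
      s i * py (disc a b i) (z i) (ω ^ (e i + m i).val * v i) := by
    intro i
    rw [hv i]
    rcases hs i with e' | e'
    · rw [e', one_mul, one_mul]
    · rw [e', neg_one_mul, neg_one_mul, py_neg]
  simp only [h1, h2]
  rw [h.signs (x := fun i => px (a i) (ω ^ (e i + m i).val * v i))
    (y := fun i => py (disc a b i) (z i) (ω ^ (e i + m i).val * v i))
    (fun i => ((hX i).mul_six (om_pow6 hω _)).onE rfl) hs]
  have h3 : (∏ i, η i) = (∏ i, s i) * ω ^ (∑ i, m i).val := by
    rw [om_sum hω, ← Finset.prod_mul_distrib]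
    exact Finset.prod_congr rfl (fun i _ => hm i)
  have h4 : ω ^ (-∑ i, e i).val = ω ^ (∑ i, m i).val * ω ^ (-∑ i, (e i + m i)).val := by
    rw [← om_add hω]
    congr 2
    rw [Finset.sum_add_distrib]
    abel
  rw [h3, h4]
  ring

end Pool.Agent.Helper51.VN
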