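import Mathlib
import Pool.Agent.Helper51.VN.AdjGf

/-!
# Lemma P for the family of chains `fam c x`
-/

set_option linter.unusedSectionVars false

namespace Pool.Agent.Helper51.VN

open VC VF VP Function Polynomial
open Pool.Agent.Helper83.VN

universe u

variable {k : Type u} [Field k] [IsAlgClosed k] [CharZero k] {ι : Type} [Fintype ι]
  [DecidableEq ι] {ω : k} {a b : ι → k} {ψ : (ι → k × k) → k}

/-- The numerator of the new coordinate. -/
noncomputable def Nn (e : Ed ι k) (ξ η : k[X]) : k[X] :=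
  C (e.s * (e.z + e.t)) * ξ - C (e.t * (e.z + e.s)) * η

/-- The denominator of the new coordinate. -/
noncomputable def Mm (e : Ed ι k) (ξ η : k[X]) : k[X] :=
  C (e.z + e.s) * η - C (e.z + e.t) * ξ

/-- Numerators and denominators of the coordinates of the family of chains. -/
noncomputable def NMf : List (Ed ι k) → k[X] → k[X] → ι → k[X] × k[X]
  | [], _, _ => fun _ => (1, 1)
  | e :: c, ξ, η => fun i => if i = e.i then (Nn e ξ η, Mm e ξ η) else
      NMf c (Nn e ξ η) (C e.z * Mm e ξ η) i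

/-- The innermost vertex. -/
noncomputable def endp : List (Ed ι k) → k[X] → k[X] → k[X] × k[X]
  | [], ξ, η => (ξ, η)
  | e :: c, ξ, η => endp c (Nn e ξ η) (C e.z * Mm e ξ η)

/-- The product of the `z (z + σ) (z + β)`. -/
def lam (c : List (Ed ι k)) : k := (c.map fun e => e.z * (e.z + e.s) * (e.z + e.t)).prod

lemma lam_cons (e : Ed ι k) (c : List (Ed ι k)) :
    lam (e :: c) = e.z * (e.z + e.s) * (e.z + e.t) * lam c := by
  unfold lam
  rw [List.map_cons, List.prod_cons]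

lemma kap_cons (e : Ed ι k) (c : List (Ed ι k)) : kap (e :: c) = e.κ * kap c := by
  unfold kap
  rw [List.map_cons, List.prod_cons]

lemma edge_id (e : Ed ι k) (ξ η : k[X]) :
    4 * Nn e ξ η ^ 2 + 4 * C e.b * Nn e ξ η * Mm e ξ η + C (e.b ^ 2 - e.κ ^ 2) * Mm e ξ η ^ 2 =
      C (4 * e.κ ^ 2 * (e.z + e.s) * (e.z + e.t)) * (ξ * η) := by
  rw [← Ed.st4, ← Ed.st, ← Ed.st']
  unfold Nn Mm
  simp only [map_mul, map_add, map_sub, map_pow, map_ofNat]
  ring

lemma tele {c : List (Ed ι k)} (hn : (c.map fun e => e.i).Nodup) (hb : ∀ e ∈ c, e.b = b e.i)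
    (hκ : ∀ e ∈ c, e.κ ^ 2 = a e.i ^ 3) (ξ η : k[X]) :
    (∏ i ∈ (c.map fun e => e.i).toFinset, (4 * (NMf c ξ η i).1 ^ 2 +
      4 * C (b i) * (NMf c ξ η i).1 * (NMf c ξ η i).2 + C (dsc a b i) * (NMf c ξ η i).2 ^ 2)) *
      ((endp c ξ η).1 * (endp c ξ η).2) =
      C (kap c ^ 2 * lam c) * (ξ * η) *
        ∏ i ∈ (c.map fun e => e.i).toFinset, (4 * (NMf c ξ η i).1 * (NMf c ξ η i).2) := by
  induction c generalizing ξ η with
  | nil => simp [endp, kap, lam]
  | cons e c ih =>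
    rw [List.map_cons, List.nodup_cons] at hn
    have ih' := ih hn.2 (fun f hf => hb f (List.mem_cons_of_mem _ hf))
      (fun f hf => hκ f (List.mem_cons_of_mem _ hf)) (Nn e ξ η) (C e.z * Mm e ξ η)
    have hne : e.i ∉ (c.map fun e => e.i).toFinset := fun h0 => hn.1 (List.mem_toFinset.mp h0)
    have h0 : NMf (e :: c) ξ η e.i = (Nn e ξ η, Mm e ξ η) := if_pos rfl
    have h1 : ∀ i ∈ (c.map fun e => e.i).toFinset, NMf (e :: c) ξ η i =
        NMf c (Nn e ξ η) (C e.z * Mm e ξ η) i := by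
      intro i hi
      apply if_neg
      rintro rfl
      exact hne hi
    rw [List.map_cons, List.toFinset_cons, Finset.prod_insert hne, Finset.prod_insert hne, h0]
    have h2 : ∏ i ∈ (c.map fun e => e.i).toFinset, (4 * (NMf (e :: c) ξ η i).1 ^ 2 +
        4 * C (b i) * (NMf (e :: c) ξ η i).1 * (NMf (e :: c) ξ η i).2 +
        C (dsc a b i) * (NMf (e :: c) ξ η i).2 ^ 2) =
        ∏ i ∈ (c.map fun e => e.i).toFinset, (4 * (NMf c (Nn e ξ η) (C e.z * Mm e ξ η) i).1 ^ 2 +
        4 * C (b i) * (NMf c (Nn e ξ η) (C e.z * Mm e ξ η) i).1 *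
          (NMf c (Nn e ξ η) (C e.z * Mm e ξ η) i).2 +
        C (dsc a b i) * (NMf c (Nn e ξ η) (C e.z * Mm e ξ η) i).2 ^ 2) :=
      Finset.prod_congr rfl (fun i hi => by rw [h1 i hi])
    have h3 : ∏ i ∈ (c.map fun e => e.i).toFinset, (4 * (NMf (e :: c) ξ η i).1 *
        (NMf (e :: c) ξ η i).2) = ∏ i ∈ (c.map fun e => e.i).toFinset,
        (4 * (NMf c (Nn e ξ η) (C e.z * Mm e ξ η) i).1 *
          (NMf c (Nn e ξ η) (C e.z * Mm e ξ η) i).2) :=
      Finset.prod_congr rfl (fun i hi => by rw [h1 i hi])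
    rw [h2, h3]
    have h4 := edge_id e ξ η
    have h5 : dsc a b e.i = e.b ^ 2 - e.κ ^ 2 := by
      unfold dsc
      rw [hb e List.mem_cons_self, hκ e List.mem_cons_self]
    rw [hb e List.mem_cons_self] at h4 h5
    rw [h5, h4, kap_cons, lam_cons]
    change _ * ((endp c (Nn e ξ η) (C e.z * Mm e ξ η)).1 *
      (endp c (Nn e ξ η) (C e.z * Mm e ξ η)).2) = _
    have h6 : ∀ A B D : k[X], A * B * D = A * (B * D) := fun A B D => mul_assoc A B D
    rw [h6, ih']
    simp only [map_mul, map_add, map_pow, map_ofNat]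
    ring

lemma endq {c : List (Ed ι k)} (hc : ∀ e ∈ c, e.Fine) (ξ η : k[X]) :
    (endp c ξ η).1 * (endp c ξ η).2 = C (lam c) * (C ((vec c).Q.eval 4) * (ξ * η) -
      C ((vec c).U'.eval 4) * ξ ^ 2 - C ((vec c).U.eval 4) * η ^ 2) := by
  induction c generalizing ξ η with
  | nil => simp [endp, lam, vec]
  | cons e c ih =>
    have hf := hc e List.mem_cons_self
    change (endp c (Nn e ξ η) (C e.z * Mm e ξ η)).1 * (endp c (Nn e ξ η) (C e.z * Mm e ξ η)).2 = _
    rw [ih (fun f h => hc f (List.mem_cons_of_mem _ h)), lam_cons]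
    obtain ⟨U, hU⟩ : ∃ U, U = (vec c).U.eval 4 := ⟨_, rfl⟩
    obtain ⟨U', hU'⟩ : ∃ U', U' = (vec c).U'.eval 4 := ⟨_, rfl⟩
    obtain ⟨Q, hQ⟩ : ∃ Q, Q = (vec c).Q.eval 4 := ⟨_, rfl⟩
    obtain ⟨R, hR⟩ : ∃ R, R = (vec c).R.eval 4 := ⟨_, rfl⟩
    have e1 : (vec (e :: c)).U.eval 4 = (e.z + e.s) / (e.z + e.t) * (e.z * U + e.t ^ 2 / e.z * U' +
        e.t * Q) := by
      change (act e (vec c)).U.eval 4 = _
      unfold act
      simp only [eval_mul, eval_add, eval_sub, eval_C, eval_X, eval_ofNat]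
      rw [← hU, ← hU', ← hQ, ← hR]
      ring
    have e2 : (vec (e :: c)).U'.eval 4 = (e.z + e.t) / (e.z + e.s) * (e.z * U + e.s ^ 2 / e.z * U' +
        e.s * Q) := by
      change (act e (vec c)).U'.eval 4 = _
      unfold act
      simp only [eval_mul, eval_add, eval_sub, eval_C, eval_X, eval_ofNat]
      rw [← hU, ← hU', ← hQ, ← hR]
      ring
    have e3 : (vec (e :: c)).Q.eval 4 = e.b * Q + 2 * (e.z * U + e.s * e.t / e.z * U') := by
      change (act e (vec c)).Q.eval 4 = _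
      unfold act
      simp only [eval_mul, eval_add, eval_C, eval_X]
      rw [← hU, ← hU', ← hQ]
      ring
    rw [e1, e2, e3, ← hU, ← hU', ← hQ, ← Ed.st]
    have hz := hf.z
    have hs := hf.zs
    have ht := hf.zt
    have q1 : e.z * (e.z + e.s) * (e.z + e.t) * ((e.s + e.t) * Q + 2 * (e.z * U + e.s * e.t / e.z * U')) =
        (e.z + e.s) * (e.z + e.t) * (e.z * (e.s + e.t) * Q + 2 * (e.z ^ 2 * U + e.s * e.t * U')) := by
      field_simp
    have q2 : e.z * (e.z + e.s) * (e.z + e.t) * ((e.z + e.t) / (e.z + e.s) * (e.z * U + e.s ^ 2 / e.z * U' +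
        e.s * Q)) = (e.z + e.t) ^ 2 * (e.z ^ 2 * U + e.s ^ 2 * U' + e.z * e.s * Q) := by
      field_simp
    have q3 : e.z * (e.z + e.s) * (e.z + e.t) * ((e.z + e.s) / (e.z + e.t) * (e.z * U + e.t ^ 2 / e.z * U' +
        e.t * Q)) = (e.z + e.s) ^ 2 * (e.z ^ 2 * U + e.t ^ 2 * U' + e.z * e.t * Q) := by
      field_simp
    have r : ∀ (m l A B D : k), C (m * l) * (C A * (ξ * η) - C B * ξ ^ 2 - C D * η ^ 2) =
        C l * (C (m * A) * (ξ * η) - C (m * B) * ξ ^ 2 - C (m * D) * η ^ 2) := by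
      intro m l A B D
      simp only [map_mul]
      ring
    rw [r, q1, q2, q3]
    unfold Nn Mm
    simp only [map_mul, map_add, map_pow, map_ofNat]
    ring

lemma fam_cons (e : Ed ι k) (c : List (Ed ι k)) (x : k) :
    fam (e :: c) x = ⟨e.i, e.b, e.κ, e.z * dn e x⟩ :: fam c (dn e x) := rfl

/-- The coordinates of the family of chains. -/
lemma eval_fam {c : List (Ed ι k)} (hn : (c.map fun e => e.i).Nodup) {ξ η : k[X]} {x : k}
    (hη : η.eval x ≠ 0) (hf : FineC (fam c (ξ.eval x / η.eval x))) :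
    (∀ i ∈ c.map fun e => e.i, (NMf c ξ η i).1.eval x ≠ 0 ∧ (NMf c ξ η i).2.eval x ≠ 0 ∧
      zof (fam c (ξ.eval x / η.eval x)) i = (NMf c ξ η i).1.eval x / (NMf c ξ η i).2.eval x) ∧
    ((c ≠ [] ∨ ξ.eval x ≠ 0) → (endp c ξ η).1.eval x ≠ 0 ∧ (endp c ξ η).2.eval x ≠ 0) := by
  induction c generalizing ξ η with
  | nil =>
    refine ⟨fun i hi => absurd hi (List.not_mem_nil), fun h => ⟨?_, hη⟩⟩
    rcases h with h | h
    · exact absurd rfl h
    · exact h
  | cons e c ih =>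
    rw [List.map_cons, List.nodup_cons] at hn
    rw [fam_cons] at hf
    have hz : e.z * dn e (ξ.eval x / η.eval x) ≠ 0 := hf.1.z
    have hf' := hf.2.2.2.2
    have hz0 := left_ne_zero_of_mul hz
    have hd0 := right_ne_zero_of_mul hz
    have hN : (Nn e ξ η).eval x = e.s * (e.z + e.t) * ξ.eval x - e.t * (e.z + e.s) * η.eval x := by
      unfold Nn
      simp only [eval_sub, eval_mul, eval_C]
    have hM : (Mm e ξ η).eval x = (e.z + e.s) * η.eval x - (e.z + e.t) * ξ.eval x := by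
      unfold Mm
      simp only [eval_sub, eval_mul, eval_C]
    have hdn : dn e (ξ.eval x / η.eval x) = (Nn e ξ η).eval x / (e.z * (Mm e ξ η).eval x) := by
      unfold dn
      rw [hN, hM]
      have e1 : e.s * (e.z + e.t) * (ξ.eval x / η.eval x) - e.t * (e.z + e.s) =
          (e.s * (e.z + e.t) * ξ.eval x - e.t * (e.z + e.s) * η.eval x) / η.eval x := by
        field_simp
      have e2 : e.z * ((e.z + e.s) - (e.z + e.t) * (ξ.eval x / η.eval x)) =
          e.z * ((e.z + e.s) * η.eval x - (e.z + e.t) * ξ.eval x) / η.eval x := by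
        field_simp
      rw [e1, e2, div_div_div_cancel_right₀ hη]
    rw [hdn] at hd0
    have hN0 : (Nn e ξ η).eval x ≠ 0 := (div_ne_zero_iff.mp hd0).1
    have hM0 : (Mm e ξ η).eval x ≠ 0 := right_ne_zero_of_mul (div_ne_zero_iff.mp hd0).2
    have hη' : (C e.z * Mm e ξ η).eval x = e.z * (Mm e ξ η).eval x := by
      rw [eval_mul, eval_C]
    have hη0 : (C e.z * Mm e ξ η).eval x ≠ 0 := by
      rw [hη']
      exact mul_ne_zero hz0 hM0
    have hdn' : dn e (ξ.eval x / η.eval x) = (Nn e ξ η).eval x / (C e.z * Mm e ξ η).eval x := by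
      rw [hη', hdn]
    rw [hdn'] at hf'
    obtain ⟨ih1, ih2⟩ := ih hn.2 hη0 hf'
    refine ⟨?_, fun _ => ih2 (Or.inr hN0)⟩
    intro i hi
    by_cases hie : i = e.i
    · have h0 : NMf (e :: c) ξ η i = (Nn e ξ η, Mm e ξ η) := if_pos hie
      rw [h0]
      refine ⟨hN0, hM0, ?_⟩
      rw [fam_cons, zof_cons, if_pos hie.symm, zof_notMem, add_zero]
      · change e.z * dn e _ = _
        rw [hdn]
        field_simp
      · have hl : ∀ (c : List (Ed ι k)) (y : k), (fam c y).map (fun e => e.i) =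
            c.map fun e => e.i := by
          intro c
          induction c with
          | nil => intro y; rfl
          | cons f c ih =>
            intro y
            rw [fam_cons, List.map_cons, List.map_cons, ih]
        rw [hl, hie]
        exact hn.1
    · have h0 : NMf (e :: c) ξ η i = NMf c (Nn e ξ η) (C e.z * Mm e ξ η) i := if_neg hie
      rw [h0]
      have hi' : i ∈ c.map fun e => e.i := by
        rw [List.map_cons, List.mem_cons] at hi
        exact hi.resolve_left hie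
      obtain ⟨h1, h2, h3⟩ := ih1 i hi'
      refine ⟨h1, h2, ?_⟩
      rw [fam_cons, zof_cons, if_neg (fun h => hie h.symm), zero_add, hdn', h3]

lemma fam_one' {c : List (Ed ι k)} (hc : ∀ e ∈ c, e.Fine) : fam c 1 = c := by
  induction c with
  | nil => rfl
  | cons e c ih =>
    have hf := hc e List.mem_cons_self
    have hd : dn e 1 = 1 := by
      unfold dn
      have h1 := Ed.st' e
      have h2 := hf.κ
      have h3 := hf.z
      have e1 : e.s * (e.z + e.t) * 1 - e.t * (e.z + e.s) = e.z * e.κ := by rw [← h1]; ring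
      have e2 : e.z * ((e.z + e.s) - (e.z + e.t) * 1) = e.z * e.κ := by rw [← h1]; ring
      rw [e1, e2, div_self (mul_ne_zero h3 h2)]
    rw [fam_cons, hd, ih (fun f h => hc f (List.mem_cons_of_mem _ h)), mul_one]

lemma lam_ne {c : List (Ed ι k)} (hc : ∀ e ∈ c, e.Fine) : lam c ≠ 0 := by
  induction c with
  | nil => exact one_ne_zero
  | cons e c ih =>
    have hf := hc e List.mem_cons_self
    rw [lam_cons]
    exact mul_ne_zero (mul_ne_zero (mul_ne_zero hf.z hf.zs) hf.zt)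
      (ih (fun f h => hc f (List.mem_cons_of_mem _ h)))

lemma kap_ne {c : List (Ed ι k)} (hc : ∀ e ∈ c, e.Fine) : kap c ≠ 0 := by
  induction c with
  | nil => exact one_ne_zero
  | cons e c ih =>
    have hf := hc e List.mem_cons_self
    rw [kap_cons]
    exact mul_ne_zero hf.κ (ih (fun f h => hc f (List.mem_cons_of_mem _ h)))

/-- Lemma P. -/
theorem gf_star (hω : ω ^ 2 + ω + 1 = 0) (hψ : Fun a b ψ) {c : List (Ed ι k)} (hc : IsChain a b c)
    (hf : FineC c) (hz : (vec c).z ≠ 0) (hf' : FineC (fam c ((vec c).z' / (vec c).z))) (v : k) :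
    GF ω a b ψ (zof (fam c ((vec c).z' / (vec c).z))) v = -GF ω a b ψ (zof c) v := by
  have hfine : ∀ e ∈ c, e.Fine := fun e he => fine_mem hf he
  have hc0 : c ≠ [] := by
    rintro rfl
    apply hz
    simp [vec, V4.z]
  have hne : Nonempty ι := by
    obtain ⟨e, he⟩ := List.exists_mem_of_ne_nil c hc0
    exact ⟨e.i⟩
  obtain ⟨x1, hx1⟩ : ∃ x1, x1 = (vec c).z' / (vec c).z := ⟨_, rfl⟩
  rw [← hx1] at hf' ⊢
  obtain ⟨N, hN⟩ : ∃ N : ι → k[X], N = fun i => (NMf c X 1 i).1 := ⟨_, rfl⟩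
  obtain ⟨M, hM⟩ : ∃ M : ι → k[X], M = fun i => (NMf c X 1 i).2 := ⟨_, rfl⟩
  have hη : ∀ x : k, (1 : k[X]).eval x ≠ 0 := fun x => by rw [eval_one]; exact one_ne_zero
  have hy : ∀ x : k, (X : k[X]).eval x / (1 : k[X]).eval x = x := fun x => by
    rw [eval_X, eval_one, div_one]
  have h0 := eval_fam (x := 1) (ξ := X) (η := 1) hc.nodup (hη _) (by
    rw [hy, fam_one' hfine]; exact hf)
  have h1 := eval_fam (x := x1) (ξ := X) (η := 1) hc.nodup (hη _) (by rw [hy]; exact hf')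
  rw [hy, fam_one' hfine] at h0
  rw [hy] at h1
  have hS : (c.map fun e => e.i).toFinset = Finset.univ := by
    ext i
    simp only [List.mem_toFinset, Finset.mem_univ, iff_true]
    exact hc.all i
  have ht := tele hc.nodup hc.hb hc.hκ (X : k[X]) 1
  rw [hS, endq hfine, mul_one] at ht
  obtain ⟨q, hq⟩ : ∃ q : k[X], q = C (lam c) * (C ((vec c).Q.eval 4) * X -
      C ((vec c).U'.eval 4) * X ^ 2 - C ((vec c).U.eval 4) * 1 ^ 2) := ⟨_, rfl⟩
  rw [← hq] at ht
  have hq' : ∀ x, q.eval x = (endp c X 1).1.eval x * (endp c X 1).2.eval x := by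
    intro x
    rw [← eval_mul, endq hfine, mul_one, hq]
  have hq1 : q.eval 1 ≠ 0 := by
    rw [hq']
    exact mul_ne_zero (h0.2 (Or.inl hc0)).1 (h0.2 (Or.inl hc0)).2
  have hqx : q.eval x1 ≠ 0 := by
    rw [hq']
    exact mul_ne_zero (h1.2 (Or.inl hc0)).1 (h1.2 (Or.inl hc0)).2
  obtain ⟨z, hzz⟩ : ∃ z, z = (vec c).z := ⟨_, rfl⟩
  obtain ⟨z', hzz'⟩ : ∃ z', z' = (vec c).z' := ⟨_, rfl⟩
  obtain ⟨Q4, hQ4⟩ : ∃ Q4, Q4 = (vec c).Q.eval 4 := ⟨_, rfl⟩
  have eU' : (vec c).U'.eval 4 = -z := by rw [hzz]; unfold V4.z; ring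
  have eU : (vec c).U.eval 4 = -z' := by rw [hzz']; unfold V4.z'; ring
  rw [eU', eU, ← hQ4] at hq
  rw [← hzz] at hz hx1
  rw [← hzz'] at hx1
  have hqv : q.eval 1 = lam c * (Q4 + z + z') := by
    rw [hq]
    simp only [eval_mul, eval_sub, eval_C, eval_X, eval_pow, eval_one, map_neg, eval_neg]
    ring
  have hlam := lam_ne hfine
  have hkap := kap_ne hfine
  have hn0 : Q4 + z + z' ≠ 0 := by
    intro h00
    apply hq1
    rw [hqv, h00, mul_zero]
  obtain ⟨u, hu⟩ : ∃ u, u = kap c ^ 2 / (Q4 + z + z') := ⟨_, rfl⟩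
  have hu0 : u ≠ 0 := by
    rw [hu]
    exact div_ne_zero (pow_ne_zero 2 hkap) hn0
  have hu' : kap c ^ 2 = u * (Q4 + z + z') := by rw [hu]; field_simp
  have hx1' : z * x1 = z' := by rw [hx1]; field_simp
  have key := gfP hω hψ (N := N) (M := M) (P := C (kap c ^ 2 * lam c) * X) (Q := q) (x0 := 1)
    (x1 := x1) (c := -(u * lam c * z)) (u := u) ?_ ?_ ?_ ?_ hu0 ?_ ?_ ?_ ?_ ?_ hq1 hqx v
  · have r0 : (fun i => (N i).eval 1 / (M i).eval 1) = zof c := by
      funext i
      rw [hN, hM]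
      exact ((h0.1 i (hc.all i)).2.2).symm
    have r1 : (fun i => (N i).eval x1 / (M i).eval x1) = zof (fam c x1) := by
      funext i
      rw [hN, hM]
      exact ((h1.1 i (hc.all i)).2.2).symm
    rw [r0, r1] at key
    exact eq_neg_of_add_eq_zero_right key
  · exact (natDegree_C_mul_le _ _).trans (natDegree_X_le.trans (by norm_num))
  · rw [hq]
    refine (natDegree_C_mul_le _ _).trans ?_
    refine (natDegree_sub_le _ _).trans (max_le ((natDegree_sub_le _ _).trans (max_le ?_ ?_)) ?_)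
    · exact (natDegree_C_mul_le _ _).trans (natDegree_X_le.trans (by norm_num))
    · exact (natDegree_C_mul_le _ _).trans (natDegree_X_pow_le 2)
    · rw [one_pow, mul_one, natDegree_C]
      norm_num
  · rw [hN, hM]
    exact ht
  · exact neg_ne_zero.mpr (mul_ne_zero (mul_ne_zero hu0 hlam) hz)
  · rw [hu', hq, ← hx1']
    simp only [map_mul, map_add, map_neg, one_pow, map_one]
    ring
  · intro i
    rw [hN]
    exact (h0.1 i (hc.all i)).1
  · intro i
    rw [hN]
    exact (h1.1 i (hc.all i)).1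
  · intro i
    rw [hM]
    exact (h0.1 i (hc.all i)).2.1
  · intro i
    rw [hM]
    exact (h1.1 i (hc.all i)).2.1

end Pool.Agent.Helper51.VN
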