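import Mathlib
import Pool.Agent.Helper51.VN.Star

/-!
# The function `Gam` is well defined
-/

set_option linter.unusedSectionVars false

namespace Pool.Agent.Helper51.VN

open VC VF VP Function Polynomial
open Pool.Agent.Helper83.VN

universe u

/-- The facts on chains (part II of the project). -/
structure PartII (ι : Type) (F : Type u) [Field F] [CharZero F] : Prop where
  vec_adj : ∀ {c c' : List (Ed ι F)}, Adj c c' → FineC c → vec c' = vec c
  zz : ∀ {c : List (Ed ι F)}, (∀ e ∈ c, e.Fine) →
    4 * (vec c).z * (vec c).z' = (vec c).Q.eval 4 ^ 2 - kap c ^ 2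
  vec_fam : ∀ {c : List (Ed ι F)} {x : F}, FineC c → x ≠ 0 → FineC (fam c x) →
    vec (fam c x) = (vec c).tor x
  fam_fam : ∀ {c : List (Ed ι F)} {x y : F}, FineC c → FineC (fam c x) → FineC (fam c (x * y)) →
    fam (fam c x) y = fam c (x * y)
  uniq : ∀ {c c' : List (Ed ι F)}, FineC c → FineC c' → c.map Ed.lab = c'.map Ed.lab →
    vec c = vec c' → c = c'
  reach_all : ∀ (c : List (Ed ι F)) (l : List (ι × F × F)), (∃ l'' : List (ι × F × F),
    l''.Perm (c.map Ed.lab) ∧ List.Forall₂ (fun p q => q.1 = p.1 ∧ q.2.1 = p.2.1 ∧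
    (q.2.2 = p.2.2 ∨ q.2.2 = -p.2.2)) l'' l) →
    ∃ c', Relation.ReflTransGen Adj c c' ∧ c'.map Ed.lab = l
  reach_fam : ∀ {c c' : List (Ed ι F)} {x : F}, Good c → Good (fam c x) →
    Relation.ReflTransGen Adj c c' → Relation.ReflTransGen Adj (fam c x) (fam c' x)

section lists

variable {ι F : Type*} [Field F] [CharZero F]

lemma kap_cons' (e : Ed ι F) (c : List (Ed ι F)) : kap (e :: c) = e.κ * kap c := by
  unfold kap
  rw [List.map_cons, List.prod_cons]

/-- The effect of a move on the labels and on the product of the `κ`. -/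
lemma adj_lab {c c' : List (Ed ι F)} (h : Adj c c') :
    (∃ l x y l', (c.map fun e => e.i) = l ++ x :: y :: l' ∧
      (c'.map fun e => e.i) = l ++ y :: x :: l' ∧ kap c' = kap c) ∨
    ((c'.map fun e => e.i) = (c.map fun e => e.i) ∧ kap c' = -kap c) := by
  induction h with
  | swap e₂ e₁ c =>
    left
    refine ⟨[], e₂.i, e₁.i, c.map fun e => e.i, rfl, rfl, ?_⟩
    rw [kap_cons', kap_cons', kap_cons', kap_cons']
    ring
  | flip e =>
    right
    refine ⟨rfl, ?_⟩
    rw [kap_cons', kap_cons']
    ring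
  | cons e h ih =>
    rcases ih with ⟨l, x, y, l', h1, h2, h3⟩ | ⟨h1, h2⟩
    · left
      refine ⟨e.i :: l, x, y, l', ?_, ?_, ?_⟩
      · rw [List.map_cons, h1]; rfl
      · rw [List.map_cons, h2]; rfl
      · rw [kap_cons', kap_cons', h3]
    · right
      refine ⟨?_, ?_⟩
      · rw [List.map_cons, List.map_cons, h1]
      · rw [kap_cons', kap_cons', h2]; ring

lemma adj_perm {c c' : List (Ed ι F)} (h : Adj c c') :
    (c'.map fun e => e.i).Perm (c.map fun e => e.i) := by
  rcases adj_lab h with ⟨l, x, y, l', h1, h2, -⟩ | ⟨h1, -⟩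
  · rw [h1, h2]
    exact List.Perm.append_left l (List.Perm.swap x y l')
  · rw [h1]

lemma adj_mem {c c' : List (Ed ι F)} (h : Adj c c') {e' : Ed ι F} (he : e' ∈ c') :
    ∃ e ∈ c, e'.i = e.i ∧ e'.b = e.b ∧ e'.κ ^ 2 = e.κ ^ 2 := by
  induction h with
  | swap e₂ e₁ c =>
    rcases List.mem_cons.mp he with h | h
    · exact ⟨e₁, List.mem_cons_of_mem _ List.mem_cons_self, by rw [h], by rw [h], by rw [h]⟩
    rcases List.mem_cons.mp h with h | h
    · exact ⟨e₂, List.mem_cons_self, by rw [h], by rw [h], by rw [h]⟩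
    · exact ⟨e', List.mem_cons_of_mem _ (List.mem_cons_of_mem _ h), rfl, rfl, rfl⟩
  | flip e =>
    rw [List.mem_singleton] at he
    refine ⟨e, List.mem_singleton_self _, by rw [he], by rw [he], ?_⟩
    rw [he]
    exact neg_sq _
  | cons e h ih =>
    rcases List.mem_cons.mp he with h' | h'
    · exact ⟨e, List.mem_cons_self, by rw [h'], by rw [h'], by rw [h']⟩
    · obtain ⟨f, hf, hf'⟩ := ih h'
      exact ⟨f, List.mem_cons_of_mem _ hf, hf'⟩

lemma adj_chain {a b : ι → F} {c c' : List (Ed ι F)} (hc : IsChain a b c) (h : Adj c c') :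
    IsChain a b c' := by
  have hp := adj_perm h
  refine ⟨hp.nodup_iff.mpr hc.nodup, fun i => hp.mem_iff.mpr (hc.all i), ?_, ?_⟩
  · intro e' he'
    obtain ⟨e, he, h1, h2, -⟩ := adj_mem h he'
    rw [h2, hc.hb e he, h1]
  · intro e' he'
    obtain ⟨e, he, h1, -, h3⟩ := adj_mem h he'
    rw [h3, hc.hκ e he, h1]

lemma fam_lab (c : List (Ed ι F)) (x : F) : (fam c x).map Ed.lab = c.map Ed.lab := by
  induction c generalizing x with
  | nil => rfl
  | cons e c ih =>
    change Ed.lab _ :: (fam c (dn e x)).map Ed.lab = _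
    rw [ih, List.map_cons]
    rfl

lemma fam_i (c : List (Ed ι F)) (x : F) :
    ((fam c x).map fun e => e.i) = c.map fun e => e.i := by
  have := congrArg (List.map Prod.fst) (fam_lab c x)
  rw [List.map_map, List.map_map] at this
  exact this

lemma fam_kap (c : List (Ed ι F)) (x : F) : kap (fam c x) = kap c := by
  have := congrArg (List.map (fun p : ι × F × F => p.2.2)) (fam_lab c x)
  rw [List.map_map, List.map_map] at this
  unfold kap
  exact congrArg List.prod this

lemma fam_mem {c : List (Ed ι F)} {x : F} {e' : Ed ι F} (he : e' ∈ fam c x) :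
    ∃ e ∈ c, e'.i = e.i ∧ e'.b = e.b ∧ e'.κ = e.κ := by
  induction c generalizing x with
  | nil => exact absurd he List.not_mem_nil
  | cons f c ih =>
    rcases List.mem_cons.mp he with h | h
    · exact ⟨f, List.mem_cons_self, by rw [h], by rw [h], by rw [h]⟩
    · obtain ⟨e, h1, h2⟩ := ih h
      exact ⟨e, List.mem_cons_of_mem _ h1, h2⟩

lemma fam_chain {a b : ι → F} {c : List (Ed ι F)} (hc : IsChain a b c) (x : F) :
    IsChain a b (fam c x) := by
  refine ⟨by rw [fam_i]; exact hc.nodup, fun i => by rw [fam_i]; exact hc.all i, ?_, ?_⟩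
  · intro e' he'
    obtain ⟨e, he, h1, h2, -⟩ := fam_mem he'
    rw [h2, hc.hb e he, h1]
  · intro e' he'
    obtain ⟨e, he, h1, -, h3⟩ := fam_mem he'
    rw [h3, hc.hκ e he, h1]

lemma fine_one {c : List (Ed ι F)} (h : FineC (fam c 1)) : fam c 1 = c := by
  induction c with
  | nil => rfl
  | cons e c ih =>
    have h1 : (⟨e.i, e.b, e.κ, e.z * dn e 1⟩ : Ed ι F).Fine := h.1
    have h2 : FineC (fam c (dn e 1)) := h.2.2.2.2
    have hz := h1.z
    have hκ : e.κ ≠ 0 := h1.κ
    have hz0 : e.z ≠ 0 := left_ne_zero_of_mul hz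
    have hd : dn e 1 = 1 := by
      unfold dn
      have e0 : e.s - e.t = e.κ := by
        unfold Ed.s Ed.t
        ring
      have e1 : e.s * (e.z + e.t) * 1 - e.t * (e.z + e.s) = e.z * e.κ := by rw [← e0]; ring
      have e2 : e.z * ((e.z + e.s) - (e.z + e.t) * 1) = e.z * e.κ := by rw [← e0]; ring
      rw [e1, e2, div_self (mul_ne_zero hz0 hκ)]
    rw [hd] at h2
    change (⟨e.i, e.b, e.κ, e.z * dn e 1⟩ : Ed ι F) :: fam c (dn e 1) = e :: c
    rw [hd, ih h2, mul_one]

lemma fam_ne {c : List (Ed ι F)} (hc0 : c ≠ []) (hc : FineC c) {x : F} (h : FineC (fam c x)) :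
    x ≠ 0 := by
  rintro rfl
  cases c with
  | nil => exact hc0 rfl
  | cons e c =>
    have h1 : (⟨e.i, e.b, e.κ, e.z * dn e 0⟩ : Ed ι F).Fine := h.1
    have h2 := h1.zt
    have h3 := hc.1.z
    have h4 := hc.1.zs
    apply h2
    change e.z * dn e 0 + e.t = 0
    unfold dn
    rw [mul_zero, zero_sub, mul_zero, sub_zero]
    field_simp
    ring

/-- Transposition of neighbours in the list of values of a permutation. -/
lemma ofFn_swap {n : ℕ} {σ : Equiv.Perm (Fin n)} {l l' : List (Fin n)} {x y : Fin n}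
    (h : List.ofFn σ = l ++ x :: y :: l') :
    ∃ σ' : Equiv.Perm (Fin n), List.ofFn σ' = l ++ y :: x :: l' ∧
      Equiv.Perm.sign σ' = -Equiv.Perm.sign σ := by
  have hlen : n = l.length + (l'.length + 2) := by
    have := congrArg List.length h
    rw [List.length_ofFn, List.length_append, List.length_cons, List.length_cons] at this
    exact this
  have hp : l.length < n := by omega
  have hq : l.length + 1 < n := by omega
  have hne : (⟨l.length, hp⟩ : Fin n) ≠ ⟨l.length + 1, hq⟩ := by
    intro h0
    have := congrArg Fin.val h0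
    simp at this
  have hget : ∀ j : Fin n, (l ++ x :: y :: l')[j.val]? = some (σ j) := by
    intro j
    rw [← h, List.getElem?_ofFn]
    simp
  refine ⟨σ * Equiv.swap ⟨l.length, hp⟩ ⟨l.length + 1, hq⟩, ?_, ?_⟩
  · apply List.ext_getElem?
    intro m
    by_cases hm : m < n
    swap
    · rw [List.getElem?_eq_none (by rw [List.length_ofFn]; omega),
        List.getElem?_eq_none (by
          rw [List.length_append, List.length_cons, List.length_cons]; omega)]
    have h1 : (List.ofFn (σ * Equiv.swap (⟨l.length, hp⟩ : Fin n) ⟨l.length + 1, hq⟩))[m]? =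
        some (σ (Equiv.swap (⟨l.length, hp⟩ : Fin n) ⟨l.length + 1, hq⟩ ⟨m, hm⟩)) := by
      rw [List.getElem?_ofFn]
      simp [hm]
    rw [h1, ← hget]
    rcases lt_trichotomy m l.length with h2 | h2 | h2
    · rw [Equiv.swap_apply_of_ne_of_ne (by
        intro h0
        have := congrArg Fin.val h0
        simp at this
        omega) (by
        intro h0
        have := congrArg Fin.val h0
        simp at this
        omega)]
      rw [List.getElem?_append_left h2, List.getElem?_append_left h2]
    · have h3 : (⟨m, hm⟩ : Fin n) = ⟨l.length, hp⟩ := Fin.ext h2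
      rw [h3, Equiv.swap_apply_left, h2]
      rw [List.getElem?_append_right (by simp), List.getElem?_append_right (by simp)]
      simp
    · by_cases h4 : m = l.length + 1
      · have h3 : (⟨m, hm⟩ : Fin n) = ⟨l.length + 1, hq⟩ := Fin.ext h4
        rw [h3, Equiv.swap_apply_right, h4]
        rw [List.getElem?_append_right (by simp), List.getElem?_append_right (by simp)]
        simp
      · rw [Equiv.swap_apply_of_ne_of_ne (by
          intro h0
          have := congrArg Fin.val h0
          simp at this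
          omega) (by
          intro h0
          have := congrArg Fin.val h0
          simp at this
          omega)]
        have h5 : l.length ≤ m := by omega
        change (l ++ x :: y :: l')[m]? = (l ++ y :: x :: l')[m]?
        rw [List.getElem?_append_right h5, List.getElem?_append_right h5]
        obtain ⟨j, hj⟩ : ∃ j, m - l.length = j + 2 := ⟨m - l.length - 2, by omega⟩
        rw [hj]
        rfl
  · rw [Equiv.Perm.sign_mul, Equiv.Perm.sign_swap hne, mul_neg_one]

end lists

end Pool.Agent.Helper51.VN
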