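import Mathlib
import Pool.Agent.Helper51.VN.GamEq

/-!
# The function `Gam` is well defined: conclusion
-/

set_option linter.unusedSectionVars false

namespace Pool.Agent.Helper51.VN

open VC VF VP Function Polynomial
open Pool.Agent.Helper83.VN

universe u

section chains

variable {F : Type*} [Field F] [CharZero F] {ι : Type*}

lemma kap_sq [Fintype ι] [DecidableEq ι] {a b : ι → F} {c : List (Ed ι F)} (hc : IsChain a b c) :
    kap c ^ 2 = (∏ i, a i) ^ 3 := by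
  unfold kap
  have h1 : (c.map fun e => e.κ).prod ^ 2 = (c.map fun e => e.κ ^ 2).prod := by
    have := List.prod_hom (c.map fun e => e.κ) (powMonoidHom 2 : F →* F)
    rw [List.map_map] at this
    exact this.symm
  have h2 : (c.map fun e => e.κ ^ 2) = (c.map fun e => e.i).map fun i => a i ^ 3 := by
    rw [List.map_map]
    apply List.map_congr_left
    intro e he
    exact hc.hκ e he
  rw [h1, h2, ← List.prod_toFinset _ hc.nodup]
  have hS : (c.map fun e => e.i).toFinset = Finset.univ := by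
    ext i
    simp only [List.mem_toFinset, Finset.mem_univ, iff_true]
    exact hc.all i
  rw [hS, Finset.prod_pow]

lemma sgn_perm {a b : ι → F} {c c' : List (Ed ι F)} (hc : IsChain a b c) (hc' : IsChain a b c') :
    ∃ l'' : List (ι × F × F), l''.Perm (c.map Ed.lab) ∧
      List.Forall₂ (fun p q => q.1 = p.1 ∧ q.2.1 = p.2.1 ∧ (q.2.2 = p.2.2 ∨ q.2.2 = -p.2.2)) l''
        (c'.map Ed.lab) := by
  have h1 : ∀ i, ∃ e ∈ c, e.i = i := by
    intro i
    have := hc.all i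
    rwa [List.mem_map] at this
  choose f hf hfi using h1
  have h2 : ∀ e ∈ c, f e.i = e := by
    intro e he
    exact List.inj_on_of_nodup_map hc.nodup (hf _) he (hfi _)
  have h3 : c.map Ed.lab = (c.map fun e => e.i).map fun i => Ed.lab (f i) := by
    rw [List.map_map]
    apply List.map_congr_left
    intro e he
    change Ed.lab e = Ed.lab (f e.i)
    rw [h2 e he]
  refine ⟨(c'.map fun e => e.i).map fun i => Ed.lab (f i), ?_, ?_⟩
  · rw [h3]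
    apply List.Perm.map
    rw [List.perm_ext_iff_of_nodup hc'.nodup hc.nodup]
    intro i
    exact ⟨fun _ => hc.all i, fun _ => hc'.all i⟩
  · rw [List.map_map, List.forall₂_map_left_iff, List.forall₂_map_right_iff, List.forall₂_same]
    intro e he
    refine ⟨(hfi _).symm, ?_, ?_⟩
    · change e.b = (f e.i).b
      rw [hc'.hb e he, hc.hb _ (hf _), hfi]
    · change e.κ = (f e.i).κ ∨ e.κ = -(f e.i).κ
      apply sq_eq_sq_iff_eq_or_eq_neg.mp
      rw [hc'.hκ e he, hc.hκ _ (hf _), hfi]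

end chains

variable {k : Type u} [Field k] [IsAlgClosed k] [CharZero k]

lemma reach_fine {n : ℕ} {c c' : List (Ed (Fin n) k)} (hg : Good c)
    (h : Relation.ReflTransGen Adj c c') : FineC c' := hg c' h

lemma gk_reach {n : ℕ} {ω : k} {a b : Fin n → k} {ψ : (Fin n → k × k) → k}
    (hω : ω ^ 2 + ω + 1 = 0) (hn : n ≠ 0) (hψ : Fun a b ψ) {c c' : List (Ed (Fin n) k)}
    (hc : IsChain a b c) (hg : Good c) (h : Relation.ReflTransGen Adj c c')
    {σ : Equiv.Perm (Fin n)} (hσ : c.map (fun e => e.i) = List.ofFn σ) :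
    IsChain a b c' ∧ ∃ σ' : Equiv.Perm (Fin n), c'.map (fun e => e.i) = List.ofFn σ' ∧
      ∀ v, (((Equiv.Perm.sign σ' : ℤˣ) : ℤ) : k) * GF ω a b ψ (zof c') (kap c' * v) =
        (((Equiv.Perm.sign σ : ℤˣ) : ℤ) : k) * GF ω a b ψ (zof c) (kap c * v) := by
  have : Nonempty (Fin n) := ⟨⟨0, Nat.pos_of_ne_zero hn⟩⟩
  induction h with
  | refl => exact ⟨hc, σ, hσ, fun v => rfl⟩
  | tail h1 h2 ih =>
    rename_i d d'
    obtain ⟨hd, τ, hτ, hv⟩ := ih
    have hf : FineC d := hg d h1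
    refine ⟨adj_chain hd h2, ?_⟩
    rcases adj_lab h2 with ⟨l, x, y, l', e1, e2, e3⟩ | ⟨e1, e2⟩
    · rw [hτ] at e1
      obtain ⟨τ', hτ', hs⟩ := ofFn_swap e1
      refine ⟨τ', by rw [e2, hτ'], fun v => ?_⟩
      rw [e3, gf_adj hω hψ hd hf h2, hs, ← hv]
      push_cast
      ring
    · refine ⟨τ, by rw [e1, hτ], fun v => ?_⟩
      rw [e2, neg_mul, gf_neg hω hψ, gf_adj hω hψ hd hf h2, neg_neg, hv]

/-- `Z (m)`. -/
noncomputable def Zf (V : V4 k) (y m : k) : k := (m ^ 6 - V.Q.eval 4 + m ^ 3 * y) / (2 * V.z)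

lemma flat_eq (V : V4 k) (ρ μ : k) : V.flat ρ μ = Zf V (V.y μ) (ρ / μ) := rfl

lemma N_eq (V : V4 k) : V.N = V.Q.eval 4 + V.z + V.z' := by
  unfold V4.N V4.z V4.z'
  ring

lemma tor_z (V : V4 k) (x : k) : (V.tor x).z = x * V.z := by
  unfold V4.tor V4.z
  simp only [eval_mul, eval_C]
  ring

lemma tor_z' (V : V4 k) (x : k) : (V.tor x).z' = x⁻¹ * V.z' := by
  unfold V4.tor V4.z'
  simp only [eval_mul, eval_C]
  ring

lemma tor_Q (V : V4 k) (x : k) : (V.tor x).Q = V.Q := rfl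

lemma Z_one {V : V4 k} {μ : k} (hz : V.z ≠ 0) (hμ : μ ≠ 0) (hN : μ ^ 6 = V.N) :
    Zf V (V.y μ) μ = 1 := by
  unfold Zf V4.y
  rw [mul_div_cancel₀ _ (pow_ne_zero 3 hμ), hN, N_eq]
  field_simp
  ring

lemma Z_tor {V : V4 k} {x y μ : k} (hz : V.z ≠ 0) (hx : x ≠ 0) (hμ : μ ≠ 0)
    (hN : μ ^ 6 = (V.tor x).N) (hy : y = (V.tor x).y μ) : Zf V y μ = x := by
  unfold Zf
  rw [hy]
  unfold V4.y
  rw [mul_div_cancel₀ _ (pow_ne_zero 3 hμ), hN, N_eq, tor_z, tor_z', tor_Q]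
  field_simp
  ring

lemma Z_prod1 {V : V4 k} {μ : k} (hz : V.z ≠ 0) (hμ : μ ≠ 0) (hN : μ ^ 6 = V.N) :
    Zf V (V.y μ) μ * Zf V (V.y μ) (-μ) = V.z' / V.z := by
  rw [Z_one hz hμ hN, one_mul]
  unfold Zf V4.y
  have h1 : (-μ) ^ 6 = V.N := by rw [← hN]; ring
  have h2 : (-μ) ^ 3 * ((V.z - V.z') / μ ^ 3) = -(V.z - V.z') := by
    field_simp
  rw [h1, h2, N_eq]
  field_simp
  ring

lemma Z_prod2 {V : V4 k} {μ ρ A κ : k} (hz : V.z ≠ 0) (hμ : μ ≠ 0) (hN : μ ^ 6 = V.N)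
    (hzz : 4 * V.z * V.z' = V.Q.eval 4 ^ 2 - κ ^ 2) (hκ : κ ^ 2 = A ^ 3) (hρ : ρ ^ 2 = A) :
    Zf V (V.y μ) (ρ / μ) * Zf V (V.y μ) (-(ρ / μ)) = V.z' / V.z := by
  unfold Zf V4.y
  obtain ⟨z, hz1⟩ : ∃ z, z = V.z := ⟨_, rfl⟩
  obtain ⟨z', hz1'⟩ : ∃ z', z' = V.z' := ⟨_, rfl⟩
  obtain ⟨q, hq⟩ : ∃ q, q = V.Q.eval 4 := ⟨_, rfl⟩
  rw [N_eq, ← hz1, ← hz1', ← hq] at hN
  rw [← hz1, ← hz1', ← hq] at hzz
  rw [← hz1, ← hz1', ← hq]
  rw [← hz1] at hz
  have h1 : (ρ / μ) ^ 6 = A ^ 3 / μ ^ 6 := by rw [div_pow, ← hρ]; ring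
  have h2 : (-(ρ / μ)) ^ 6 = A ^ 3 / μ ^ 6 := by rw [← h1]; ring
  have h3 : (-(ρ / μ)) ^ 3 = -(ρ / μ) ^ 3 := by ring
  rw [h1, h2, h3]
  have h4 : ((ρ / μ) ^ 3 * ((z - z') / μ ^ 3)) ^ 2 = A ^ 3 * (z - z') ^ 2 / μ ^ 12 := by
    rw [← hρ]
    field_simp
  have h5 : (A ^ 3 / μ ^ 6 - q + (ρ / μ) ^ 3 * ((z - z') / μ ^ 3)) *
      (A ^ 3 / μ ^ 6 - q + -(ρ / μ) ^ 3 * ((z - z') / μ ^ 3)) =
      (A ^ 3 / μ ^ 6 - q) ^ 2 - A ^ 3 * (z - z') ^ 2 / μ ^ 12 := by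
    rw [← h4]
    ring
  rw [div_mul_div_comm, h5]
  have h6 : μ ^ 12 = (q + z + z') ^ 2 := by rw [← hN]; ring
  have hs : q + z + z' ≠ 0 := by
    rw [← hN]
    exact pow_ne_zero 6 hμ
  have h7 : A ^ 3 = q ^ 2 - 4 * z * z' := by
    rw [← hκ]
    linear_combination hzz
  rw [hN, h6, h7]
  field_simp
  ring

/-- The function `Gam` depends, up to the sign of the permutation of the labels, only on the
four-vector up to the torus and on the total point. -/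
theorem gam_eq {n : ℕ} {ω : k} {a b : Fin n → k} {ψ : (Fin n → k × k) → k}
    (hI : PartII (Fin n) k) (hω : ω ^ 2 + ω + 1 = 0)
    (hn : n ≠ 0) (hψ : Fun a b ψ) {c c' : List (Ed (Fin n) k)} (hc : IsChain a b c)
    (hc' : IsChain a b c') (hf' : FineC c') {x μ μ' : k} (hx : x ≠ 0)
    (hv : vec c' = (vec c).tor x) (hμ : μ ≠ 0) (hμ' : μ' ≠ 0) (hN : μ ^ 6 = (vec c).N)
    (hN' : μ' ^ 6 = (vec c').N) (hξ : xi (∏ i, a i) μ = xi (∏ i, a i) μ')
    (hy : (vec c).y μ = (vec c').y μ') (hz : (vec c).z ≠ 0)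
    (hg : ∀ x₁ : k, (x₁ = 1 ∨ x₁ = (vec c).flat (rho a c) μ) →
      Good (fam c x₁) ∧ Good (fam c (x₁ * ((vec (fam c x₁)).z' / (vec (fam c x₁)).z))))
    {σ σ' : Equiv.Perm (Fin n)} (hσ : c.map (fun e => e.i) = List.ofFn σ)
    (hσ' : c'.map (fun e => e.i) = List.ofFn σ') :
    (((Equiv.Perm.sign σ' : ℤˣ) : ℤ) : k) * Gam ω a b ψ c' μ' =
      (((Equiv.Perm.sign σ : ℤˣ) : ℤ) : k) * Gam ω a b ψ c μ := by
  have : Nonempty (Fin n) := ⟨⟨0, Nat.pos_of_ne_zero hn⟩⟩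
  -- the chain `c` itself
  have g1 : Good c := by
    have h1 := (hg 1 (Or.inl rfl)).1
    rwa [fine_one (h1 _ Relation.ReflTransGen.refl)] at h1
  have f1 : FineC c := g1 _ Relation.ReflTransGen.refl
  have hfine : ∀ e ∈ c, e.Fine := fun e he => fine_mem f1 he
  have hc0 : c ≠ [] := by
    rintro rfl
    apply hz
    simp [vec, V4.z]
  obtain ⟨V, hV⟩ : ∃ V, V = vec c := ⟨_, rfl⟩
  obtain ⟨y, hyy⟩ : ∃ y, y = V.y μ := ⟨_, rfl⟩
  obtain ⟨A, hA⟩ : ∃ A, A = ∏ i, a i := ⟨_, rfl⟩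
  obtain ⟨ρ, hρ⟩ : ∃ ρ, ρ = rho a c := ⟨_, rfl⟩
  have hκ0 : kap c ≠ 0 := kap_ne hfine
  have hκ3 : kap c ^ 2 = A ^ 3 := by rw [hA]; exact kap_sq hc
  have hA0 : A ≠ 0 := by
    rintro rfl
    apply hκ0
    have : kap c ^ 2 = 0 := by rw [hκ3]; ring
    exact pow_eq_zero_iff (two_ne_zero) |>.mp this
  have hρe : ρ = kap c / A := by rw [hρ, hA]; rfl
  have hρA : ρ ^ 2 = A := by
    rw [hρe, div_pow, hκ3]
    field_simp
  have hρ0 : ρ ≠ 0 := by
    rw [hρe]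
    exact div_ne_zero hκ0 hA0
  have hzz := hI.zz hfine
  rw [← hV] at hz hN hv hzz hy
  rw [← hyy] at hy
  -- the function `Z`
  obtain ⟨Z, hZ⟩ : ∃ Z : k → k, Z = Zf V y := ⟨_, rfl⟩
  have hZμ : Z μ = 1 := by rw [hZ, hyy]; exact Z_one hz hμ hN
  have hZf : (vec c).flat (rho a c) μ = Z (ρ / μ) := by
    rw [hZ, hyy, hρ, ← hV]
    rfl
  have hfv : ∀ x₁, FineC (fam c x₁) → x₁ ≠ 0 ∧ vec (fam c x₁) = V.tor x₁ := by
    intro x₁ h
    have h0 := fam_ne hc0 f1 h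
    exact ⟨h0, by rw [hV]; exact hI.vec_fam f1 h0 h⟩
  obtain ⟨P, hP⟩ : ∃ P : k → Prop, P = fun m => m ≠ 0 ∧ Good (fam c (Z m)) ∧
      Good (fam c (Z (-m))) ∧ Z m ≠ 0 ∧ Z (-m) ≠ 0 ∧ Z m * Z (-m) = V.z' / V.z := ⟨_, rfl⟩
  have hP1 : ∀ m, m ≠ 0 → Z m * Z (-m) = V.z' / V.z → (Z m = 1 ∨ Z m = (vec c).flat (rho a c) μ) →
      P m := by
    intro m hm hm2 hm3
    obtain ⟨h1, h2⟩ := hg (Z m) hm3
    obtain ⟨h3, h4⟩ := hfv _ (h1 _ Relation.ReflTransGen.refl)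
    have h5 : Z m * ((vec (fam c (Z m))).z' / (vec (fam c (Z m))).z) = Z (-m) := by
      rw [h4, tor_z, tor_z']
      have h6 : Z (-m) = V.z' / V.z / Z m := by
        rw [← hm2]
        field_simp
      rw [h6]
      field_simp
    rw [h5] at h2
    obtain ⟨h7, -⟩ := hfv _ (h2 _ Relation.ReflTransGen.refl)
    rw [hP]
    exact ⟨hm, h1, h2, h3, h7, hm2⟩
  have hPneg : ∀ m, P m → P (-m) := by
    intro m hm
    rw [hP] at hm ⊢
    obtain ⟨h1, h2, h3, h4, h5, h6⟩ := hm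
    refine ⟨neg_ne_zero.mpr h1, h3, ?_, h5, ?_, ?_⟩
    · rw [neg_neg]; exact h2
    · rw [neg_neg]; exact h4
    · rw [neg_neg, mul_comm]; exact h6
  have hPμ : P μ := hP1 μ hμ (by rw [hZ, hyy]; exact Z_prod1 hz hμ hN) (Or.inl hZμ)
  have hPρ : P (ρ / μ) := hP1 _ (div_ne_zero hρ0 hμ)
    (by rw [hZ, hyy]; exact Z_prod2 hz hμ hN hzz hκ3 hρA) (Or.inr hZf.symm)
  -- the values
  obtain ⟨S, hS⟩ : ∃ S : k → k, S = fun m => GF ω a b ψ (zof (fam c (Z m))) (ρ / m) := ⟨_, rfl⟩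
  have hSneg : ∀ m, P m → S (-m) = S m := by
    intro m hm
    rw [hP] at hm
    obtain ⟨h1, h2, h3, h4, h5, h6⟩ := hm
    have e1 := h2 _ Relation.ReflTransGen.refl
    have e2 := h3 _ Relation.ReflTransGen.refl
    obtain ⟨-, e3⟩ := hfv _ e1
    have e4 : Z (-m) = Z m * ((vec (fam c (Z m))).z' / (vec (fam c (Z m))).z) := by
      rw [e3, tor_z, tor_z']
      have h6 : Z (-m) = V.z' / V.z / Z m := by
        rw [← h6]
        field_simp
      rw [h6]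
      field_simp
    have e5 : fam (fam c (Z m)) ((vec (fam c (Z m))).z' / (vec (fam c (Z m))).z) =
        fam c (Z (-m)) := by
      rw [e4]
      exact hI.fam_fam f1 e1 (by rw [← e4]; exact e2)
    have key := gf_star hω hψ (fam_chain hc (Z m)) e1 (by
      rw [e3, tor_z]
      exact mul_ne_zero h4 hz) (by rw [e5]; exact e2) (ρ / m)
    rw [e5] at key
    rw [hS]
    change GF ω a b ψ (zof (fam c (Z (-m)))) (ρ / -m) = GF ω a b ψ (zof (fam c (Z m))) (ρ / m)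
    rw [div_neg, gf_neg hω hψ, key, neg_neg]
  have hG : Gam ω a b ψ c μ = S μ + S (ρ / μ) := by
    rw [hS]
    unfold Gam
    rw [hZf]
    change _ = GF ω a b ψ (zof (fam c (Z μ))) (ρ / μ) +
      GF ω a b ψ (zof (fam c (Z (ρ / μ)))) (ρ / (ρ / μ))
    rw [hZμ, fine_one (by
      have := (hg 1 (Or.inl rfl)).1
      exact this _ Relation.ReflTransGen.refl), ← hρ, div_div_cancel₀ hρ0]
  -- the four possibilities
  have hcases : (μ' = μ ∨ μ' = -μ) ∨ (μ' = ρ / μ ∨ μ' = -(ρ / μ)) := by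
    have h1 : (μ ^ 2 - μ' ^ 2) * ((μ * μ') ^ 2 - A) = 0 := by
      rw [← hA] at hξ
      unfold xi at hξ
      field_simp at hξ
      linear_combination hξ
    rcases mul_eq_zero.mp h1 with h2 | h2
    · left
      apply sq_eq_sq_iff_eq_or_eq_neg.mp
      linear_combination -h2
    · right
      have h3 : (μ * μ') ^ 2 = ρ ^ 2 := by rw [hρA]; linear_combination h2
      rcases sq_eq_sq_iff_eq_or_eq_neg.mp h3 with h4 | h4
      · left
        rw [eq_div_iff hμ, mul_comm]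
        exact h4
      · right
        rw [← neg_div, eq_div_iff hμ, mul_comm]
        exact h4
  obtain ⟨hP', hSS⟩ : (P μ' ∧ P (ρ / μ')) ∧ S μ' + S (ρ / μ') = S μ + S (ρ / μ) := by
    rcases hcases with (h | h) | (h | h)
    · rw [h]
      exact ⟨⟨hPμ, hPρ⟩, rfl⟩
    · rw [h, div_neg, hSneg μ hPμ, hSneg _ hPρ]
      exact ⟨⟨hPneg _ hPμ, hPneg _ hPρ⟩, rfl⟩
    · rw [h, div_div_cancel₀ hρ0, add_comm]
      exact ⟨⟨hPρ, hPμ⟩, rfl⟩
    · rw [h, div_neg, div_div_cancel₀ hρ0, hSneg μ hPμ, hSneg _ hPρ, add_comm]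
      exact ⟨⟨hPneg _ hPρ, hPneg _ hPμ⟩, rfl⟩
  rw [hG, ← hSS]
  -- the chain `c'`
  have hxZ : Z μ' = x := by
    rw [hZ]
    exact Z_tor hz hx hμ' (by rw [hN', hv]) (by rw [hy, hv])
  have hkk : kap c' ^ 2 = kap c ^ 2 := by rw [kap_sq hc', hκ3, hA]
  obtain ⟨ε, hε, hkε⟩ : ∃ ε : k, ε * ε = 1 ∧ kap c' = ε * kap c := by
    rcases sq_eq_sq_iff_eq_or_eq_neg.mp hkk with h | h
    · exact ⟨1, by ring, by rw [h, one_mul]⟩
    · exact ⟨-1, by ring, by rw [h]; ring⟩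
  have hε1 : ε = 1 ∨ ε = -1 := mul_self_eq_one_iff.mp hε
  have hε0 : ε ≠ 0 := by
    rintro rfl
    rw [mul_zero] at hε
    exact zero_ne_one hε
  have hρ' : rho a c' = ε * ρ := by
    unfold rho
    rw [hkε, hρe, hA]
    ring
  have hm0 : ρ / μ' ≠ 0 := div_ne_zero hρ0 hμ'
  have hP'' : P (ε * ρ / μ') := by
    rcases hε1 with h | h
    · rw [h, one_mul]; exact hP'.2
    · rw [h, neg_one_mul, neg_div]; exact hPneg _ hP'.2
  have hSε : S (ε * ρ / μ') = S (ρ / μ') := by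
    rcases hε1 with h | h
    · rw [h, one_mul]
    · rw [h, neg_one_mul, neg_div]; exact hSneg _ hP'.2
  have hflat : x * (vec c').flat (rho a c') μ' = Z (ε * ρ / μ') := by
    rw [flat_eq, hv, hρ', hZ]
    unfold Zf
    rw [tor_z, tor_Q, ← hv, ← hy]
    field_simp
  obtain ⟨x', hx'⟩ : ∃ x', x' = (vec c').flat (rho a c') μ' := ⟨_, rfl⟩
  rw [← hx'] at hflat
  have hgx : Good (fam c x) := by
    have := hP'.1
    rw [hP] at this
    rw [← hxZ]
    exact this.2.1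
  have hgx' : Good (fam c (x * x')) := by
    rw [hP] at hP''
    rw [hflat]
    exact hP''.2.1
  have fx := hgx _ Relation.ReflTransGen.refl
  have fx' := hgx' _ Relation.ReflTransGen.refl
  have hff : fam (fam c x) x' = fam c (x * x') := hI.fam_fam f1 fx fx'
  have hreach : Relation.ReflTransGen Adj (fam c x) c' := by
    obtain ⟨c'', h1, h2⟩ := hI.reach_all (fam c x) (c'.map Ed.lab)
      (sgn_perm (fam_chain hc x) hc')
    have h3 : ∀ d, Relation.ReflTransGen Adj (fam c x) d → vec d = vec (fam c x) := by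
      intro d hd
      induction hd with
      | refl => rfl
      | tail h4 h5 ih => rw [hI.vec_adj h5 (hgx _ h4), ih]
    have h6 : c'' = c' := hI.uniq (hgx _ h1) hf' h2 (by rw [h3 _ h1, hv, (hfv _ fx).2])
    rw [← h6]
    exact h1
  have hreach' : Relation.ReflTransGen Adj (fam c (x * x')) (fam c' x') := by
    have := hI.reach_fam (x := x') hgx (by rw [hff]; exact hgx') hreach
    rwa [hff] at this
  have hinj : ∀ {τ τ' : Equiv.Perm (Fin n)}, List.ofFn τ = List.ofFn τ' → τ = τ' := by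
    intro τ τ' h
    exact Equiv.coe_fn_injective (List.ofFn_injective h)
  obtain ⟨-, τ, hτ, k1⟩ := gk_reach hω hn hψ (fam_chain hc x) hgx hreach
    (σ := σ) (by rw [fam_i]; exact hσ)
  obtain ⟨-, τ', hτ', k2⟩ := gk_reach hω hn hψ (fam_chain hc (x * x')) hgx' hreach'
    (σ := σ) (by rw [fam_i]; exact hσ)
  have t1 : τ = σ' := hinj (by rw [← hτ, hσ'])
  have t2 : τ' = σ' := hinj (by rw [← hτ', fam_i, hσ'])
  rw [t1] at k1
  rw [t2] at k2
  have v1 := k1 (1 / (A * μ'))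
  have v2 := k2 (μ' / kap c')
  have hκ0' : kap c' ≠ 0 := by rw [hkε]; exact mul_ne_zero hε0 hκ0
  rw [fam_kap] at v1
  rw [fam_kap, fam_kap, mul_div_cancel₀ _ hκ0'] at v2
  have w1 : kap c' * (1 / (A * μ')) = rho a c' / μ' := by
    unfold rho
    rw [← hA]
    field_simp
  have w2 : kap c * (1 / (A * μ')) = ρ / μ' := by
    rw [hρe]
    field_simp
  have w3 : kap c * (μ' / kap c') = ρ / (ε * ρ / μ') := by
    rw [hkε]
    field_simp
  rw [w1, w2] at v1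
  rw [w3] at v2
  unfold Gam
  rw [← hx', mul_add, mul_add, v1, v2, ← hSε, hS, hflat]
  change _ = _ * GF ω a b ψ (zof (fam c (Z μ'))) (ρ / μ') +
    _ * GF ω a b ψ (zof (fam c (Z (ε * ρ / μ')))) (ρ / (ε * ρ / μ'))
  rw [hxZ]

theorem gf_zero_of_gam {ι : Type} [Fintype ι] [DecidableEq ι] {ω : k} {a b : ι → k}
    {ψ : (ι → k × k) → k} (hω : ω ^ 2 + ω + 1 = 0) (hψ : Fun a b ψ) {c : List (Ed ι k)}
    [Nonempty ι] {μ : k} (h0 : Gam ω a b ψ c μ = 0) (h1 : Gam ω a b ψ c (ω * μ) = 0) :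
    GF ω a b ψ (zof c) (rho a c / μ) = 0 := by
  have h3 := om3 hω
  have hω0 : ω ≠ 0 := by
    rintro rfl
    norm_num at hω
  have hfl : (vec c).flat (rho a c) (ω * μ) = (vec c).flat (rho a c) μ := by
    unfold V4.flat V4.y
    have e1 : (rho a c / (ω * μ)) ^ 6 = (rho a c / μ) ^ 6 := by
      rw [div_pow, div_pow, mul_pow]
      have : ω ^ 6 = 1 := by
        calc ω ^ 6 = (ω ^ 3) ^ 2 := by ring
          _ = 1 := by rw [h3]; ring
      rw [this, one_mul]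
    have e2 : (rho a c / (ω * μ)) ^ 3 = (rho a c / μ) ^ 3 := by
      rw [div_pow, div_pow, mul_pow, h3, one_mul]
    have e3 : (ω * μ) ^ 3 = μ ^ 3 := by rw [mul_pow, h3, one_mul]
    rw [e1, e2, e3]
  unfold Gam at h0 h1
  rw [hfl, gf_omega hω hψ] at h1
  have e4 : rho a c / (ω * μ) = ω * (ω * (rho a c / μ)) := by
    have : (1 : k) / ω = ω * ω := by
      rw [div_eq_iff hω0]
      linear_combination -h3
    calc rho a c / (ω * μ) = (1 / ω) * (rho a c / μ) := by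
          rw [div_mul_div_comm, one_mul]
      _ = _ := by rw [this]; ring
  rw [e4, gf_omega hω hψ, gf_omega hω hψ] at h1
  obtain ⟨g, hg⟩ : ∃ g, g = GF ω a b ψ (zof c) (rho a c / μ) := ⟨_, rfl⟩
  obtain ⟨g', hg'⟩ : ∃ g', g' = GF ω a b ψ (zof (fam c ((vec c).flat (rho a c) μ))) μ := ⟨_, rfl⟩
  rw [← hg, ← hg'] at h0 h1
  rw [← hg]
  have h5 : (ω - 1) * g = 0 := by
    have : ω * (ω * g + g') = 0 := by rw [← h1]; ring
    rcases mul_eq_zero.mp this with h | h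
    · exact absurd h hω0
    · linear_combination h - h0
  rcases mul_eq_zero.mp h5 with h | h
  · exfalso
    have : ω = 1 := by linear_combination h
    rw [this] at hω
    norm_num at hω
  · exact h

end Pool.Agent.Helper51.VN
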