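import Mathlib
import Pool.Agent.Helper15.VN.Reach
import Pool.Agent.Helper15.VN.Fam
import Pool.Agent.Helper51.VN.Gam

/-!
# The family is compatible with the moves; part II is satisfied
-/

set_option linter.unusedSectionVars false

namespace Pool.Agent.Helper51.VN

open Polynomial
open Pool.Agent.Helper83.VN

universe u

variable {ι : Type*} {F : Type*} [Field F] [CharZero F]

/-- Uniqueness of the family. -/
lemma fam_of_vec {d d'' : List (Ed ι F)} (hd : FineC d) (hd'' : FineC d'')
    (hl : d''.map Ed.lab = d.map Ed.lab) {x : F} (hx : x ≠ 0) (hv : vec d'' = (vec d).tor x) :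
    d'' = fam d x := by
  induction d generalizing d'' x with
  | nil =>
    rw [List.map_nil, List.map_eq_nil_iff] at hl
    rw [hl]
    rfl
  | cons e d ih =>
    cases d'' with
    | nil => simp at hl
    | cons e' d' =>
      rw [List.map_cons, List.map_cons, List.cons.injEq] at hl
      obtain ⟨h1, h2⟩ := hl
      have hi : e'.i = e.i := congrArg Prod.fst h1
      have hb : e'.b = e.b := congrArg (fun p => p.2.1) h1
      have hκ : e'.κ = e.κ := congrArg (fun p => p.2.2) h1
      have hs : e'.s = e.s := by unfold Ed.s; rw [hb, hκ]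
      have ht : e'.t = e.t := by unfold Ed.t; rw [hb, hκ]
      have hw : e'.w = e.w := by unfold Ed.w; rw [hb, hs, ht]
      have f := hd.1
      have f' := hd''.1
      have o1 := Helper15.VN.outer f (vec d)
      have o2 := Helper15.VN.outer f' (vec d')
      change act e' (vec d') = (act e (vec d)).tor x at hv
      rw [hv, hs, ht, hw, hb, hκ] at o2
      have r2 : ((act e (vec d)).tor x).U'.eval e.w = x * (act e (vec d)).U'.eval e.w := by
        simp [V4.tor]
      have r3 : ((act e (vec d)).tor x).Q.eval e.w = (act e (vec d)).Q.eval e.w := rfl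
      have r4 : ((act e (vec d)).tor x).R.eval e.w = (act e (vec d)).R.eval e.w := rfl
      rw [r2, r3, r4] at o2
      have hU := hd.2.2.2.1
      have o3 : e.b * (act e (vec d)).U'.eval e.w * ((e.z + e.s) * (e'.z + e.t) -
          x * (e'.z + e.s) * (e.z + e.t)) = 0 := by
        linear_combination (e'.z + e.t) * o1 - (e.z + e.t) * o2
      have o4 := (mul_eq_zero.mp o3).resolve_left (mul_ne_zero f.b hU)
      have hκ' := Helper15.VN.s_sub_t e
      have hD : (e.z + e.s) - (e.z + e.t) * x ≠ 0 := by
        intro h0
        have h3 : (e.z + e.s) * e.κ = 0 := by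
          rw [← hκ']
          linear_combination -o4 + (e'.z + e.s) * h0
        rcases mul_eq_zero.mp h3 with h | h
        · exact f.zs h
        · exact f.κ h
      have hz0 := f.z
      have hz : e'.z = e.z * dn e x := by
        unfold dn
        field_simp
        linear_combination o4
      have he : e' = ⟨e.i, e.b, e.κ, e.z * dn e x⟩ := Ed.ext hi hb hκ hz
      have f'' : (⟨e.i, e.b, e.κ, e.z * dn e x⟩ : Ed ι F).Fine := he ▸ f'
      have hy : dn e x ≠ 0 := right_ne_zero_of_mul f''.z
      have h4 := Helper15.VN.act_fam f hx f'' (vec d)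
      rw [he, ← h4] at hv
      have h5 := Helper15.VN.act_inj f'' hv
      rw [he, ih hd.2.2.2.2 hd''.2.2.2.2 h2 hy h5]
      rfl

lemma vec_reach {c c' : List (Ed ι F)} (hg : Good c) (h : Relation.ReflTransGen Adj c c') :
    vec c' = vec c := by
  induction h with
  | refl => rfl
  | tail h4 h5 ih => rw [Helper15.VN.vec_adj h5 (hg _ h4), ih]

theorem reach_fam {c c' : List (Ed ι F)} {x : F} (hg : Good c) (hg' : Good (fam c x))
    (h : Relation.ReflTransGen Adj c c') : Relation.ReflTransGen Adj (fam c x) (fam c' x) := by
  by_cases hc0 : c = []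
  · subst hc0
    have : c' = [] := by
      induction h with
      | refl => rfl
      | tail h1 h2 ih =>
        subst ih
        cases h2
    rw [this]
  have hx : x ≠ 0 := fam_ne hc0 (hg _ Relation.ReflTransGen.refl) (hg' _ Relation.ReflTransGen.refl)
  have hs : SgnPerm ((fam c x).map Ed.lab) (c'.map Ed.lab) := by
    rw [fam_lab]
    exact Helper15.VN.reach_sgn h
  obtain ⟨c'', h1, h2⟩ := Helper15.VN.reach_all (fam c x) (c'.map Ed.lab) hs
  have h3 : c'' = fam c' x := by
    apply fam_of_vec (hg _ h) (hg' _ h1) h2 hx
    rw [vec_reach hg' h1, vec_reach hg h,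
      Helper15.VN.vec_fam (hg _ Relation.ReflTransGen.refl) hx (hg' _ Relation.ReflTransGen.refl)]
  rw [← h3]
  exact h1

theorem partII (ι : Type) (F : Type u) [Field F] [CharZero F] : PartII ι F where
  vec_adj := Helper15.VN.vec_adj
  zz := Helper15.VN.zz
  vec_fam := Helper15.VN.vec_fam
  fam_fam := Helper15.VN.fam_fam
  uniq := Helper15.VN.uniq
  reach_all := fun c l h => Helper15.VN.reach_all c l h
  reach_fam := reach_fam

end Pool.Agent.Helper51.VN
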